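import Pool.Agent.Work.MP_0fc146_gt_98.Num

/-!
# Block GROW, part 1: cuts of the octagon tree
-/

noncomputable section

open scoped Topology
open Filter

namespace Pool.Agent.CircleShift.GrowAux

/-- The first letter of the way from `w` to `v`. -/
def fl (w v : G) : Option (Fin 4 × Bool) := ((w⁻¹ * v).toWord).head?

theorem fl_left (w u v : G) : fl (w * u) (w * v) = fl u v := by
  unfold fl
  congr 2
  group

theorem isRed_left {u v : List (Fin 4 × Bool)} (h : FreeGroup.IsReduced (u ++ v)) :
    FreeGroup.IsReduced u := List.IsChain.left_of_append h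

theorem toWord_mul_letter (g : G) (x : Fin 4 × Bool) :
    (g * FreeGroup.mk [x]).toWord = g.toWord ++ [x] ∨
      (g.toWord = (g * FreeGroup.mk [x]).toWord ++ [(x.1, !x.2)]) := by
  rcases List.eq_nil_or_concat g.toWord with h | ⟨u, y, h⟩
  · left
    have h1 : g = 1 := FreeGroup.toWord_eq_nil_iff.1 h
    rw [h1, one_mul]
    simp
  · rw [List.concat_eq_append] at h
    have hg : g = FreeGroup.mk (u ++ [y]) := by
      rw [← h, FreeGroup.mk_toWord]
    have hred : FreeGroup.IsReduced (u ++ [y]) := by rw [← h]; exact FreeGroup.isReduced_toWord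
    by_cases hxy : y = (x.1, !x.2)
    · right
      have h2 : g * FreeGroup.mk [x] = FreeGroup.mk u := by
        rw [hg, FreeGroup.mul_mk, hxy]
        have := @FreeGroup.Red.Step.not_rev _ u [] x.1 x.2
        rw [List.append_nil] at this
        have h3 := FreeGroup.Red.exact (L₁ := u ++ [(x.1, !x.2)] ++ [x]) (L₂ := u)
        apply h3.2
        refine ⟨u, ?_, Relation.ReflTransGen.refl⟩
        apply Relation.ReflTransGen.single
        rw [List.append_assoc]
        exact this
      have h4 : (FreeGroup.mk u : G).toWord = u := by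
        rw [FreeGroup.toWord_mk]
        exact (isRed_left hred).reduce_eq
      rw [h, h2, h4, hxy]
    · left
      have h2 : g * FreeGroup.mk [x] = FreeGroup.mk (u ++ [y] ++ [x]) := by
        rw [hg, FreeGroup.mul_mk]
      have h3 : FreeGroup.IsReduced (u ++ [y] ++ [x]) := by
        refine FreeGroup.IsReduced.append_overlap hred ?_ (by simp)
        unfold FreeGroup.IsReduced
        simp only [List.singleton_append, List.isChain_cons_cons, List.isChain_singleton,
          and_true]
        intro h5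
        by_contra h6
        apply hxy
        ext
        · simp [h5]
        · simp only
          rcases x with ⟨x1, x2⟩
          rcases y with ⟨y1, y2⟩
          simp only at h5 h6
          cases x2 <;> cases y2 <;> simp_all
      rw [h2, FreeGroup.toWord_mk, h3.reduce_eq, h]

theorem fl_step (w v : G) (x : Fin 4 × Bool) (h1 : v ≠ w) (h2 : v * FreeGroup.mk [x] ≠ w) :
    fl w (v * FreeGroup.mk [x]) = fl w v := by
  unfold fl
  rw [← mul_assoc]
  have h3 : (w⁻¹ * v).toWord ≠ [] := by
    intro h
    rw [FreeGroup.toWord_eq_nil_iff] at h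
    exact h1 (inv_mul_eq_one.1 h).symm
  have h4 : (w⁻¹ * v * FreeGroup.mk [x]).toWord ≠ [] := by
    intro h
    rw [FreeGroup.toWord_eq_nil_iff, mul_assoc] at h
    exact h2 (inv_mul_eq_one.1 h).symm
  rcases toWord_mul_letter (w⁻¹ * v) x with h | h
  · rw [h]
    cases h5 : (w⁻¹ * v).toWord with
    | nil => exact absurd h5 h3
    | cons a l => rfl
  · rw [h]
    cases h5 : (w⁻¹ * v * FreeGroup.mk [x]).toWord with
    | nil => exact absurd h5 h4
    | cons a l => rfl

/-! ### The potential of two cuts -/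

section pot

open scoped Classical in
/-- The potential. -/
def pot (γ : G → ℝ) (P Q : G → Fin 8 → Prop) (a b : ℝ) (x : G × Fin 8 × ℝ) : ℝ :=
  if Q x.1 x.2.1 then a - b else if P x.1 x.2.1 then
    max 0 (min (a - b) (a - (γ x.1 + x.2.2))) else 0

theorem pot_chain (T : Tri) (γ : G → ℝ)
    (hγ : ∀ h t i, γ (h * T.lab t i) + T.shift t i = γ h) (P Q : G → Fin 8 → Prop) (a b : ℝ)
    (hab : b ≤ a)
    (hP : ∀ h t i q, T.InEdge t i q → ¬ (P h t ↔ P (h * T.lab t i) (T.nb t i).1) → a ≤ γ h + q)
    (hQ : ∀ h t i q, T.InEdge t i q → ¬ (Q h t ↔ Q (h * T.lab t i) (T.nb t i).1) →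
      γ h + q ≤ b ∧ P h t ∧ P (h * T.lab t i) (T.nb t i).1)
    {x y : G × Fin 8 × ℝ} {r : ℝ} (h : T.Chain x y r) :
    |pot γ P Q a b y - pot γ P Q a b x| ≤ r := by
  induction h with
  | slide h t q q' _ _ =>
    unfold pot
    simp only
    split_ifs
    · simp
    · have h1 : |min (a - b) (a - (γ h + q')) - min (a - b) (a - (γ h + q))| ≤
          |(a - (γ h + q')) - (a - (γ h + q))| := by
        have := abs_min_sub_min_le_max (a - b) (a - (γ h + q')) (a - b) (a - (γ h + q))
        simpa using this
      have h2 : |max 0 (min (a - b) (a - (γ h + q'))) - max 0 (min (a - b) (a - (γ h + q)))| ≤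
          |min (a - b) (a - (γ h + q')) - min (a - b) (a - (γ h + q))| := by
        have := abs_max_sub_max_le_max (0 : ℝ) (min (a - b) (a - (γ h + q'))) 0
          (min (a - b) (a - (γ h + q)))
        simpa using this
      refine h2.trans (h1.trans (le_of_eq ?_))
      congr 1
      ring
    · simp
  | cross h t i q hq =>
    have hg : γ (h * T.lab t i) + (q + T.shift t i) = γ h + q := by
      have := hγ h t i
      linarith
    have key : pot γ P Q a b (h * T.lab t i, (T.nb t i).1, q + T.shift t i) =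
        pot γ P Q a b (h, t, q) := by
      unfold pot
      simp only
      rw [hg]
      by_cases hq1 : Q h t ↔ Q (h * T.lab t i) (T.nb t i).1
      · by_cases hq2 : Q h t
        · rw [if_pos (hq1.1 hq2), if_pos hq2]
        · rw [if_neg (fun h => hq2 (hq1.2 h)), if_neg hq2]
          by_cases hp1 : P h t ↔ P (h * T.lab t i) (T.nb t i).1
          · by_cases hp2 : P h t
            · rw [if_pos (hp1.1 hp2), if_pos hp2]
            · rw [if_neg (fun h => hp2 (hp1.2 h)), if_neg hp2]
          · have h1 := hP h t i q hq hp1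
            have h2 : max 0 (min (a - b) (a - (γ h + q))) = 0 := by
              apply max_eq_left
              exact (min_le_right _ _).trans (by linarith)
            rw [h2]
            simp
      · obtain ⟨h1, h2, h3⟩ := hQ h t i q hq hq1
        rw [if_pos h2, if_pos h3]
        have h4 : max 0 (min (a - b) (a - (γ h + q))) = a - b := by
          rw [min_eq_left (by linarith), max_eq_right (by linarith)]
        rw [h4]
        simp
    rw [key]
    simp
  | @trans x y z r r' _ _ ih1 ih2 =>
    refine (abs_sub_le _ (pot γ P Q a b y) _).trans ?_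
    rw [add_comm]
    exact add_le_add ih1 ih2

theorem two_cuts (T : Tri) (γ : G → ℝ)
    (hγ : ∀ h t i, γ (h * T.lab t i) + T.shift t i = γ h) (P Q : G → Fin 8 → Prop) (a b : ℝ)
    (hab : b ≤ a)
    (hP : ∀ h t i q, T.InEdge t i q → ¬ (P h t ↔ P (h * T.lab t i) (T.nb t i).1) → a ≤ γ h + q)
    (hQ : ∀ h t i q, T.InEdge t i q → ¬ (Q h t ↔ Q (h * T.lab t i) (T.nb t i).1) →
      γ h + q ≤ b ∧ P h t ∧ P (h * T.lab t i) (T.nb t i).1)
    {h h' : G} {t t' : Fin 8} {q q' : ℝ} {r : ℝ} (hc : T.Chain (h, t, q) (h', t', q') r)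
    (h1 : ¬ P h t) (h2 : ¬ Q h t) (h3 : Q h' t') : a - b ≤ r := by
  have h4 := pot_chain T γ hγ P Q a b hab hP hQ hc
  unfold pot at h4
  simp only at h4
  rw [if_pos h3, if_neg h2, if_neg h1, sub_zero] at h4
  exact (le_abs_self _).trans h4

end pot

/-! ### The octagon -/

/-- The letters of the sides. -/
def slt : Fin 8 → Fin 4 × Bool := ![(0, true), (1, true), (2, true), (3, true), (0, false),
  (1, false), (2, false), (3, false)]

theorem Tl_eq (k : Fin 8) : Tl k = FreeGroup.mk [slt k] := by
  fin_cases k <;> rfl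

theorem slt_inj {k k' : Fin 8} (h : slt k = slt k') : k = k' := by
  revert k k'; decide

/-- The global coordinate of the centre of an octagon. -/
def gamM : G →* Multiplicative ℝ := FreeGroup.lift (fun i => Multiplicative.ofAdd
  (![-1 - √3, -2 - √3, 1, -1 - √3] i : ℝ))

def gam (g : G) : ℝ := Multiplicative.toAdd (gamM g)

theorem gam_mul (g h : G) : gam (g * h) = gam g + gam h := by
  unfold gam; rw [map_mul]; rfl

theorem gam_one : gam 1 = 0 := by
  unfold gam; rw [map_one]; rfl

theorem gam_inv (g : G) : gam g⁻¹ = - gam g := by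
  have := gam_mul g g⁻¹
  rw [mul_inv_cancel, gam_one] at this
  linarith

theorem gam_of (i : Fin 4) : gam (FreeGroup.of i) = (![-1 - √3, -2 - √3, 1, -1 - √3] i : ℝ) := by
  unfold gam gamM; rw [FreeGroup.lift_apply_of]; rfl

/-- The global coordinates of the letters, in `ℤ[√3]`. -/
def gtab (x : Fin 4 × Bool) : ℤ × ℤ :=
  match x with
  | (0, true) => (-1, -1)
  | (1, true) => (-2, -1)
  | (2, true) => (1, 0)
  | (3, true) => (-1, -1)
  | (0, false) => (1, 1)
  | (1, false) => (2, 1)
  | (2, false) => (-1, 0)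
  | (3, false) => (1, 1)

theorem gam_letter (x : Fin 4 × Bool) : gam (FreeGroup.mk [x]) = z3 (gtab x) := by
  rcases x with ⟨i, b⟩
  cases b
  · have h : (FreeGroup.mk [(i, false)] : G) = (FreeGroup.of i)⁻¹ := by
      simp [FreeGroup.of, FreeGroup.inv_mk, FreeGroup.invRev]
    rw [h, gam_inv, gam_of]
    fin_cases i <;> simp [gtab, z3] <;> ring
  · have h : (FreeGroup.mk [(i, true)] : G) = FreeGroup.of i := rfl
    rw [h, gam_of]
    fin_cases i <;> simp [gtab, z3] <;> ring

/-- The global coordinate of a word. -/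
def gW (w : List (Fin 4 × Bool)) : ℤ × ℤ := ((w.map (fun x => (gtab x).1)).sum,
  (w.map (fun x => (gtab x).2)).sum)

theorem gam_mk (w : List (Fin 4 × Bool)) : gam (FreeGroup.mk w) = z3 (gW w) := by
  induction w with
  | nil =>
    have : (FreeGroup.mk [] : G) = 1 := rfl
    rw [this, gam_one]
    simp [gW, z3]
  | cons x w ih =>
    have h1 : (FreeGroup.mk (x :: w) : G) = FreeGroup.mk [x] * FreeGroup.mk w := by
      rw [FreeGroup.mul_mk]; rfl
    rw [h1, gam_mul, ih, gam_letter]
    unfold gW z3
    simp only [List.map_cons, List.sum_cons]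
    push_cast
    ring

theorem octT (S : ℝ) : ostri.real S = otri (xw S) := ostri_real S

theorem gam_cross (S : ℝ) (h : G) (t : Fin 8) (i : Fin 3) :
    gam (h * (ostri.real S).lab t i) + (ostri.real S).shift t i = gam h := by
  rw [octT, gam_mul]
  have h1 : gam ((otri (xw S)).lab t i) + (otri (xw S)).shift t i = 0 := by
    unfold Tri.shift otri
    simp only
    rw [gam_mk]
    fin_cases t <;> fin_cases i <;>
      simp [ostri, xw, xTab, z3, gW, gtab] <;> ring
  linarith

/-! ### Cuts -/

/-- The part of the tree of octagons beyond the triangles `J` of the octagon `w` or beyond the sides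
`J'` of the octagon `w`. -/
def Cut (w : G) (J J' : Fin 8 → Bool) (h : G) (t : Fin 8) : Prop :=
  (h = w ∧ J t = true) ∨ (∃ k, J' k = true ∧ fl w h = some (slt k))

theorem fl_self (w : G) : fl w w = none := by
  unfold fl; rw [inv_mul_cancel]; simp

theorem fl_Tl (w : G) (k : Fin 8) : fl w (w * Tl k) = some (slt k) := by
  unfold fl
  rw [inv_mul_cancel_left, Tl_eq]
  simp

theorem nb_zero (S : ℝ) (t : Fin 8) : ((ostri.real S).nb t 0).1 = t + 4 := by
  change (ostri.nb t 0).1 = t + 4
  revert t; decide

theorem nb_one (S : ℝ) (t : Fin 8) : ((ostri.real S).nb t 1).1 = t + 1 := by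
  change (ostri.nb t 1).1 = t + 1
  revert t; decide

theorem nb_two (S : ℝ) (t : Fin 8) : ((ostri.real S).nb t 2).1 = t - 1 := by
  change (ostri.nb t 2).1 = t - 1
  revert t; decide

theorem lab_zero (S : ℝ) (t : Fin 8) : (ostri.real S).lab t 0 = Tl t := rfl

theorem lab_one (S : ℝ) (t : Fin 8) : (ostri.real S).lab t 1 = 1 := by
  change FreeGroup.mk (ostri.lab t 1) = 1
  have : ostri.lab t 1 = [] := by revert t; decide
  rw [this]; rfl

theorem lab_two (S : ℝ) (t : Fin 8) : (ostri.real S).lab t 2 = 1 := by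
  change FreeGroup.mk (ostri.lab t 2) = 1
  have : ostri.lab t 2 = [] := by revert t; decide
  rw [this]; rfl

theorem Tl_add_four (t : Fin 8) : Tl (t + 4) = (Tl t)⁻¹ := by
  rw [Tl_eq, Tl_eq, FreeGroup.inv_mk]
  congr 1
  revert t; decide

theorem cut_at (w : G) (J J' : Fin 8 → Bool) (t : Fin 8) : Cut w J J' w t ↔ J t = true := by
  unfold Cut
  rw [fl_self]
  simp

theorem cut_nbr (w : G) (J J' : Fin 8 → Bool) (k t : Fin 8) :
    Cut w J J' (w * Tl k) t ↔ J' k = true := by
  unfold Cut
  rw [fl_Tl]
  constructor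
  · rintro (⟨h, _⟩ | ⟨k', h1, h2⟩)
    · exfalso
      have h3 : Tl k = 1 := by
        have := congrArg (fun x => w⁻¹ * x) h
        simpa using this
      rw [Tl_eq] at h3
      have h4 := congrArg FreeGroup.toWord h3
      simp at h4
    · rw [Option.some.injEq] at h2
      rw [slt_inj h2]; exact h1
  · intro h; exact Or.inr ⟨k, h, rfl⟩

theorem cut_bdry (S : ℝ) (w : G) (J J' : Fin 8 → Bool) (h : G) (t : Fin 8) (i : Fin 3)
    (hb : ¬ (Cut w J J' h t ↔
      Cut w J J' (h * (ostri.real S).lab t i) ((ostri.real S).nb t i).1)) :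
    (h = w ∧ i = 0 ∧ J t ≠ J' t) ∨ (h = w * Tl (t + 4) ∧ i = 0 ∧ J (t + 4) ≠ J' (t + 4)) ∨
    (h = w ∧ i = 1 ∧ J t ≠ J (t + 1)) ∨ (h = w ∧ i = 2 ∧ J t ≠ J (t - 1)) := by
  fin_cases i
  · change ¬ (Cut w J J' h t ↔
      Cut w J J' (h * (ostri.real S).lab t 0) ((ostri.real S).nb t 0).1) at hb
    rw [lab_zero, nb_zero] at hb
    by_cases h1 : h = w
    · subst h1
      left
      refine ⟨rfl, rfl, fun h2 => hb ?_⟩
      rw [cut_at, cut_nbr, h2]
    · by_cases h2 : h * Tl t = w
      · right; left
        have h3 : h = w * Tl (t + 4) := by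
          rw [Tl_add_four, ← h2, mul_inv_cancel_right]
        refine ⟨h3, rfl, fun h4 => hb ?_⟩
        rw [h2, cut_at, h3, cut_nbr, h4]
      · exfalso
        apply hb
        unfold Cut
        rw [Tl_eq] at h2 ⊢
        rw [fl_step w h _ h1 h2]
        simp [h1, h2]
  · change ¬ (Cut w J J' h t ↔
      Cut w J J' (h * (ostri.real S).lab t 1) ((ostri.real S).nb t 1).1) at hb
    rw [lab_one, nb_one, mul_one] at hb
    right; right; left
    by_cases h1 : h = w
    · subst h1
      refine ⟨rfl, rfl, fun h2 => hb ?_⟩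
      rw [cut_at, cut_at, h2]
    · exfalso
      apply hb
      unfold Cut
      simp [h1]
  · change ¬ (Cut w J J' h t ↔
      Cut w J J' (h * (ostri.real S).lab t 2) ((ostri.real S).nb t 2).1) at hb
    rw [lab_two, nb_two, mul_one] at hb
    right; right; right
    by_cases h1 : h = w
    · subst h1
      refine ⟨rfl, rfl, fun h2 => hb ?_⟩
      rw [cut_at, cut_at, h2]
    · exfalso
      apply hb
      unfold Cut
      simp [h1]

end Pool.Agent.CircleShift.GrowAux
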