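import Pool.Agent.Work.MP_0fc146_gt_98.Cuts

/-!
# Block GROW, part 2
-/

noncomputable section

open scoped Topology
open Filter

namespace Pool.Agent.CircleShift.GrowAux

/-! ### Connectivity of the tree of octagons -/

theorem inRange_zero (S : ℝ) (t : Fin 8) : (ostri.real S).InRange t 0 := by
  rw [octT]
  exact ⟨0, 0, by simp [otri], by simp [otri]⟩

theorem inRange_pos (T : Tri) (t : Fin 8) (i : Fin 3) : T.InRange t (T.pos t i) :=
  ⟨i, i, le_rfl, le_rfl⟩

theorem conn_one (S : ℝ) (h : G) (t : Fin 8) :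
    (ostri.real S).Chain (h, t, 0) (h, t + 1, 0) 0 := by
  have h1 : (ostri.real S).InEdge t 1 0 := by
    rw [octT]
    unfold Tri.InEdge otri
    simp only
    have e1 : ((1 : Fin 3) + 1) = 2 := rfl
    have e2 : ((1 : Fin 3) + 2) = 0 := rfl
    rw [e1, e2]
    simp
  have h2 := Tri.Chain.cross (T := ostri.real S) h t 1 0 h1
  rw [lab_one, nb_one, mul_one] at h2
  have h3 : (ostri.real S).shift t 1 = 0 := by
    have := gam_cross S 1 t 1
    rw [lab_one, mul_one] at this
    linarith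
  rw [h3, add_zero] at h2
  exact h2

theorem conn_tri (S : ℝ) (h : G) (t : Fin 8) (n : ℕ) :
    ∃ r, (ostri.real S).Chain (h, t, 0) (h, (fun t : Fin 8 => t + 1)^[n] t, 0) r := by
  induction n with
  | zero =>
    refine ⟨|0 - 0|, ?_⟩
    exact Tri.Chain.slide (T := ostri.real S) h t 0 0 (inRange_zero S t) (inRange_zero S t)
  | succ n ih =>
    obtain ⟨r, hr⟩ := ih
    rw [Function.iterate_succ_apply']
    exact ⟨_, hr.trans (conn_one S h _)⟩

theorem conn_tri' (S : ℝ) (h : G) (t t' : Fin 8) :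
    ∃ r, (ostri.real S).Chain (h, t, 0) (h, t', 0) r := by
  have h1 : ∀ t t' : Fin 8, ∃ n : Fin 8, (fun t : Fin 8 => t + 1)^[n.val] t = t' := by decide
  obtain ⟨n, hn⟩ := h1 t t'
  obtain ⟨r, hr⟩ := conn_tri S h t n.val
  rw [hn] at hr
  exact ⟨r, hr⟩

theorem conn_side (S : ℝ) (h : G) (k : Fin 8) :
    ∃ r, (ostri.real S).Chain (h, k, 0) (h * Tl k, k + 4, 0) r := by
  have h1 : (ostri.real S).InEdge k 0 ((ostri.real S).pos k 1) := by
    unfold Tri.InEdge
    have e1 : ((0 : Fin 3) + 1) = 1 := rfl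
    rw [e1]
    exact Set.left_mem_uIcc
  have h2 := Tri.Chain.cross (T := ostri.real S) h k 0 _ h1
  rw [lab_zero, nb_zero] at h2
  have h3 : (ostri.real S).InRange (k + 4)
      ((ostri.real S).pos k 1 + (ostri.real S).shift k 0) := by
    have h4 : (ostri.real S).pos k 1 + (ostri.real S).shift k 0 =
        (ostri.real S).pos (k + 4) 2 := by
      unfold Tri.shift
      have h6 : ∀ k : Fin 8, ostri.nb k 0 = (k + 4, 0) := by decide
      have h5 : (ostri.real S).nb k 0 = (k + 4, 0) := h6 k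
      rw [h5]
      have e1 : ((0 : Fin 3) + 1) = 1 := rfl
      have e2 : ((0 : Fin 3) + 2) = 2 := rfl
      simp only [e1, e2]
      ring
    rw [h4]
    exact inRange_pos _ _ _
  exact ⟨_, ((Tri.Chain.slide h k 0 _ (inRange_zero S k) (inRange_pos _ _ _)).trans h2).trans
    (Tri.Chain.slide (h * Tl k) (k + 4) _ 0 h3 (inRange_zero S _))⟩

theorem conn_word (S : ℝ) (w : List (Fin 4 × Bool)) (h : G) (t t' : Fin 8) :
    ∃ r, (ostri.real S).Chain (h, t, 0) (h * FreeGroup.mk w, t', 0) r := by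
  induction w generalizing h t with
  | nil =>
    have : (FreeGroup.mk [] : G) = 1 := rfl
    rw [this, mul_one]
    exact conn_tri' S h t t'
  | cons x w ih =>
    obtain ⟨k, hk⟩ : ∃ k : Fin 8, slt k = x := by
      rcases x with ⟨i, b⟩
      revert i b; decide
    obtain ⟨r1, h1⟩ := conn_tri' S h t k
    obtain ⟨r2, h2⟩ := conn_side S h k
    obtain ⟨r3, h3⟩ := ih (h * Tl k) (k + 4)
    refine ⟨r1 + r2 + r3, ?_⟩
    have h4 : h * FreeGroup.mk (x :: w) = h * Tl k * FreeGroup.mk w := by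
      rw [Tl_eq, hk, mul_assoc, FreeGroup.mul_mk]; rfl
    rw [h4]
    exact (h1.trans h2).trans h3

theorem chain_nonneg {T : Tri} {x y : G × Fin 8 × ℝ} {r : ℝ} (h : T.Chain x y r) : 0 ≤ r := by
  induction h with
  | slide h t q q' _ _ => exact abs_nonneg _
  | cross h t i q _ => exact le_rfl
  | trans _ _ ih1 ih2 => exact add_nonneg ih1 ih2

theorem VsO_nonneg (S : ℝ) (g : G) : 0 ≤ VsO S g := by
  unfold VsO Tri.Vs
  apply Real.sInf_nonneg
  rintro r ⟨t, q, t', q', h⟩
  exact chain_nonneg h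

theorem le_VsO (S : ℝ) (g : G) (b : ℝ)
    (h : ∀ t q t' q' r, (ostri.real S).Chain (1, t, q) (g, t', q') r → b ≤ r) : b ≤ VsO S g := by
  unfold VsO Tri.Vs
  apply le_csInf
  · obtain ⟨r, hr⟩ := conn_word S g.toWord 1 0 0
    rw [FreeGroup.mk_toWord, one_mul] at hr
    exact ⟨r, 0, 0, 0, 0, hr⟩
  · rintro r ⟨t, q, t', q', h'⟩
    exact h t q t' q' r h'

/-! ### Positive words -/

/-- The letters `x, W, y, Z`. -/
def upl : Fin 4 → Fin 4 × Bool := ![(1, false), (0, true), (2, true), (3, true)]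

/-- Positive words in `x, W, y, Z`. -/
def upW (l : List (Fin 4)) : List (Fin 4 × Bool) := l.map upl

/-- The substitution. -/
def sg : Fin 4 → List (Fin 4) := ![[2], [0, 1, 3, 1, 0], [1, 0, 1, 0, 1, 0, 1], [1, 0, 1, 0, 1]]

theorem upW_reduced (l : List (Fin 4)) : FreeGroup.IsReduced (upW l) := by
  unfold FreeGroup.IsReduced upW
  rw [List.isChain_map]
  have h : ∀ a b : Fin 4, (upl a).1 = (upl b).1 → (upl a).2 = (upl b).2 := by decide
  apply List.Pairwise.isChain
  induction l with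
  | nil => exact List.Pairwise.nil
  | cons a l ih => exact List.Pairwise.cons (fun b _ => h a b) ih

theorem toWord_upW (l : List (Fin 4)) : (FreeGroup.mk (upW l) : G).toWord = upW l := by
  rw [FreeGroup.toWord_mk, (upW_reduced l).reduce_eq]

theorem norm_upW (l : List (Fin 4)) : (FreeGroup.mk (upW l) : G).norm = l.length := by
  unfold FreeGroup.norm
  rw [toWord_upW]
  unfold upW
  rw [List.length_map]

theorem upW_append (l l' : List (Fin 4)) : upW (l ++ l') = upW l ++ upW l' := by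
  unfold upW; rw [List.map_append]

/-- The intersection number of a positive word. -/
def fw (S : ℝ) (l : List (Fin 4)) : ℝ := VsO S (FreeGroup.mk (upW l))

theorem fw_append (hA : Stmt_VsAdd) {S : ℝ} (hS : |S| ≤ 1) (l l' : List (Fin 4)) :
    fw S l + fw S l' ≤ fw S (l ++ l') := by
  unfold fw
  have h : (FreeGroup.mk (upW (l ++ l')) : G) = FreeGroup.mk (upW l) * FreeGroup.mk (upW l') := by
    rw [FreeGroup.mul_mk, upW_append]
  rw [h]
  apply hA S hS
  rw [← h, norm_upW, norm_upW, norm_upW, List.length_append]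

theorem fw_nonneg (S : ℝ) (l : List (Fin 4)) : 0 ≤ fw S l := VsO_nonneg _ _

theorem fw_infix (hA : Stmt_VsAdd) {S : ℝ} (hS : |S| ≤ 1) {l l' : List (Fin 4)}
    (h : l <:+: l') : fw S l ≤ fw S l' := by
  obtain ⟨u, v, rfl⟩ := h
  have h1 := fw_append hA hS (u ++ l) v
  have h2 := fw_append hA hS u l
  linarith [fw_nonneg S u, fw_nonneg S v]

/-! ### The automorphism of the substitution -/

/-- The conjugate of `u`. -/
def sAut : MulAut G := psiAut⁻¹ * rhoAut * uAut * (psiAut⁻¹ * rhoAut)⁻¹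

def sTab : Fin 4 → List (Fin 4 × Bool) := ![upW (sg 1), [(2, false)], upW (sg 2), upW (sg 3)]

theorem hasTab_sAut : HasTab sAut sTab := by
  have h0 : sAut = (((psiAut⁻¹ * rhoAut) * uAut) * rhoAut) * psiAut := by
    have h1 : rhoAut⁻¹ = rhoAut := by
      rw [inv_eq_iff_mul_eq_one]
      exact stmt_Rho.1
    unfold sAut
    rw [mul_inv_rev, inv_inv, h1]
    group
  rw [h0]
  refine HasTab.congr ((((hasTab_psi_inv.mul hasTab_rho).mul hasTab_u).mul hasTab_rho).mul
    hasTab_psi) ?_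
  decide +kernel

theorem substW_sTab (l : List (Fin 4)) : substW sTab (upW l) = upW (l.flatMap sg) := by
  induction l with
  | nil => rfl
  | cons a l ih =>
    have h1 : upW (a :: l) = [upl a] ++ upW l := rfl
    have h3 : ∀ u v : List (Fin 4 × Bool), substW sTab (u ++ v) = substW sTab u ++ substW sTab v := by
      intro u v; simp [substW]
    have h4 : ∀ a : Fin 4, substW sTab [upl a] = upW (sg a) := by decide
    rw [h1, h3, ih, h4, List.flatMap_cons, upW_append]

/-- Iterated substitution. -/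
def sgn : ℕ → List (Fin 4) → List (Fin 4)
  | 0, l => l
  | n + 1, l => (sgn n l).flatMap sg

theorem sAut_pow (n : ℕ) (l : List (Fin 4)) :
    (sAut ^ n) (FreeGroup.mk (upW l)) = FreeGroup.mk (upW (sgn n l)) := by
  induction n with
  | zero => rfl
  | succ n ih =>
    rw [pow_succ', MulAut.mul_apply, ih, hasTab_sAut, substW_sTab]
    rfl

theorem sgn_append (n : ℕ) (l l' : List (Fin 4)) : sgn n (l ++ l') = sgn n l ++ sgn n l' := by
  induction n with
  | zero => rfl
  | succ n ih => simp only [sgn]; rw [ih, List.flatMap_append]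

theorem sgn_add (m n : ℕ) (l : List (Fin 4)) : sgn (m + n) l = sgn m (sgn n l) := by
  induction m with
  | zero => rw [Nat.zero_add]; rfl
  | succ m ih =>
    rw [Nat.succ_add]
    simp only [sgn]
    rw [ih]

/-- The starting words. -/
def st : Fin 4 → List (Fin 4) := ![[0], [1], [2], [0, 1, 3]]

theorem start_eq (x : Fin 4) : psiAut⁻¹ (rhoAut (FreeGroup.of x)) = FreeGroup.mk (upW (st x)) := by
  have h1 : psiAut⁻¹ (rhoAut (FreeGroup.of x)) = (psiAut⁻¹ * rhoAut) (FreeGroup.mk [(x, true)]) := rfl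
  rw [h1, (hasTab_psi_inv.mul hasTab_rho)]
  apply FreeGroup.reduce.exact
  revert x
  decide +kernel

theorem word_eq (m : ℕ) (x : Fin 4) : psiAut⁻¹ (rhoAut ((uAut ^ m) (FreeGroup.of x))) =
    FreeGroup.mk (upW (sgn m (st x))) := by
  rw [← sAut_pow, ← start_eq]
  have h : ∀ m : ℕ, (psiAut⁻¹ * rhoAut) * uAut ^ m = sAut ^ m * (psiAut⁻¹ * rhoAut) := by
    intro m
    unfold sAut
    have h1 : ∀ a b : MulAut G, (a * b * a⁻¹) ^ m = a * b ^ m * a⁻¹ := fun a b => conj_pow
    rw [h1, inv_mul_cancel_right]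
  have h2 := congrArg (fun f : MulAut G => f (FreeGroup.of x)) (h m)
  exact h2

/-! ### The weights -/

def vT : Fin 4 → ℤ × ℤ := ![(7, -4), (-5, 3), (2, -1), (-5, 3)]

def vw (x : Fin 4) : ℝ := z3 (vT x)

theorem vw_sg (x : Fin 4) : ((sg x).map vw).sum = lam * vw x := by
  unfold vw
  rw [← z3_ml]
  fin_cases x <;> simp [sg, vT, z3, ml] <;> ring

theorem vw_sgn (n : ℕ) (l : List (Fin 4)) : ((sgn n l).map vw).sum = lam ^ n * (l.map vw).sum := by
  induction n with
  | zero => simp [sgn]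
  | succ n ih =>
    have h : ∀ l : List (Fin 4), ((l.flatMap sg).map vw).sum = lam * (l.map vw).sum := by
      intro l
      induction l with
      | nil => simp
      | cons a l ih =>
        rw [List.flatMap_cons, List.map_append, List.sum_append, ih, vw_sg, List.map_cons,
          List.sum_cons]
        ring
    simp only [sgn]
    rw [h, ih, pow_succ]
    ring

theorem vw_le (x : Fin 4) : vw x ≤ 1 := by
  unfold vw
  have h1 := sq3_lo
  have h2 := sq3_hi
  fin_cases x <;> simp [vT, z3] <;> linarith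

theorem vw_ge (x : Fin 4) : (1 / 20 : ℝ) ≤ vw x := by
  unfold vw
  have h1 := sq3_lo
  have h2 := sq3_hi
  fin_cases x <;> simp [vT, z3] <;> linarith

theorem sum_vw_le (l : List (Fin 4)) : (l.map vw).sum ≤ l.length := by
  induction l with
  | nil => simp
  | cons a l ih =>
    simp only [List.map_cons, List.sum_cons, List.length_cons]
    push_cast
    linarith [vw_le a]

theorem sum_vw_ge (x : Fin 4) : (1 / 20 : ℝ) ≤ ((st x).map vw).sum := by
  have h0 := vw_ge 0
  have h1 := vw_ge 1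
  have h3 := vw_ge 3
  fin_cases x
  · simpa [st] using vw_ge 0
  · simpa [st] using vw_ge 1
  · simpa [st] using vw_ge 2
  · simp [st]
    norm_num at h0 h1 h3
    linarith

theorem length_sgn (n : ℕ) (x : Fin 4) : lam ^ n / 20 ≤ ((sgn n (st x)).length : ℝ) := by
  refine le_trans ?_ (sum_vw_le _)
  rw [vw_sgn]
  have h1 : 0 < lam ^ n := pow_pos lam_pos n
  have h2 := mul_le_mul_of_nonneg_left (sum_vw_ge x) h1.le
  linarith

/-! ### The two words -/

/-- `ZWxWxWxWxWZWxy`. -/
def wP : List (Fin 4) := [3, 1, 0, 1, 0, 1, 0, 1, 0, 1, 3, 1, 0, 2]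

/-- `xyxWZWxWxWxWxW`. -/
def wM : List (Fin 4) := [0, 2, 0, 1, 3, 1, 0, 1, 0, 1, 0, 1, 0, 1]

theorem wP_infix (a : Fin 4) : (wP ++ [0]) <:+: sgn 5 [a] := by
  have h1 : (wP ++ [0]) <:+: sgn 3 [1] := by decide +kernel
  have h2 : [1] <:+: sgn 2 [a] := by revert a; decide +kernel
  obtain ⟨u, v, h⟩ := h2
  have h3 : sgn 5 [a] = sgn 3 (sgn 2 [a]) := sgn_add 3 2 [a]
  rw [h3, ← h, sgn_append, sgn_append]
  exact h1.trans ⟨sgn 3 u, sgn 3 v, rfl⟩

theorem wM_infix (a : Fin 4) : (wM ++ [3]) <:+: sgn 5 [a] := by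
  have h1 : (wM ++ [3]) <:+: sgn 3 [1] := by decide +kernel
  have h2 : [1] <:+: sgn 2 [a] := by revert a; decide +kernel
  obtain ⟨u, v, h⟩ := h2
  have h3 : sgn 5 [a] = sgn 3 (sgn 2 [a]) := sgn_add 3 2 [a]
  rw [h3, ← h, sgn_append, sgn_append]
  exact h1.trans ⟨sgn 3 u, sgn 3 v, rfl⟩

/-- The octagon before the last letter of `wP`. -/
def hP14 : G := FreeGroup.mk (upW wP)

/-- The octagon before the last letter of `wM`. -/
def hM14 : G := FreeGroup.mk (upW wM)

theorem gam_hP14 : gam hP14 = 3 - 3 * √3 := by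
  unfold hP14
  rw [gam_mk]
  have : gW (upW wP) = (3, -3) := by decide
  rw [this]
  simp [z3]
  ring

theorem gam_hM14 : gam hM14 = 6 - √3 := by
  unfold hM14
  rw [gam_mk]
  have : gW (upW wM) = (6, -1) := by decide
  rw [this]
  simp [z3]
  ring

theorem gam_Tl3 : gam (Tl 3) = -1 - √3 := by
  rw [Tl_eq, gam_letter]
  simp [slt, gtab, z3]
  ring

theorem gam_Tl5 : gam (Tl 5) = 2 + √3 := by
  rw [Tl_eq, gam_letter]
  simp [slt, gtab, z3]

theorem edge0 (S : ℝ) (t : Fin 8) (q : ℝ) (h : (ostri.real S).InEdge t 0 q) :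
    min (xw S t) (xw S (t + 1)) ≤ q ∧ q ≤ max (xw S t) (xw S (t + 1)) := by
  rw [octT] at h
  exact h

theorem edge1 (S : ℝ) (t : Fin 8) (q : ℝ) (h : (ostri.real S).InEdge t 1 q) :
    min (xw S (t + 1)) 0 ≤ q ∧ q ≤ max (xw S (t + 1)) 0 := by
  rw [octT] at h
  exact h

theorem edge2 (S : ℝ) (t : Fin 8) (q : ℝ) (h : (ostri.real S).InEdge t 2 q) :
    min 0 (xw S t) ≤ q ∧ q ≤ max 0 (xw S t) := by
  rw [octT] at h
  exact h

theorem xw_vals (S : ℝ) : xw S 0 = (3 + √3) / 2 + S ∧ xw S 1 = (-5 - 3 * √3) / 2 + S ∧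
    xw S 2 = (1 + √3) / 2 + S ∧ xw S 3 = (1 - √3) / 2 + S ∧ xw S 4 = (-3 - √3) / 2 + S ∧
    xw S 5 = (5 + 3 * √3) / 2 + S ∧ xw S 6 = (-1 - √3) / 2 + S ∧ xw S 7 = (-1 + √3) / 2 + S := by
  refine ⟨?_, ?_, ?_, ?_, ?_, ?_, ?_, ?_⟩ <;> simp [xw, xTab, z3] <;> ring

theorem aux7 (t : Fin 8) (h : false ≠ (t + 4 == 3)) : t = 7 := by
  revert t; decide

theorem fw_P (S : ℝ) (h1 : -1 ≤ S) (h2 : S ≤ 1) (h3 : (17 / 100 : ℝ) ≤ S) :
    S - 17 / 100 ≤ fw S (wP ++ [0]) := by
  obtain ⟨x0, x1, x2, x3, x4, x5, x6, x7⟩ := xw_vals S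
  have s1 := sq3_lo
  have s2 := sq3_hi
  have e1 : S - 17 / 100 ≤ xw S 4 - gam hP14 := by
    rw [x4, gam_hP14]; linarith
  refine e1.trans ?_
  unfold fw
  have e2 : (FreeGroup.mk (upW (wP ++ [0])) : G) = hP14 * Tl 5 := by
    rw [upW_append, ← FreeGroup.mul_mk, Tl_eq]
    rfl
  rw [e2]
  apply le_VsO
  intro t q t' q' r hr
  refine two_cuts (ostri.real S) gam (gam_cross S) (Cut 1 (fun _ => false) (fun k => k == 3))
    (Cut hP14 (fun k => k == 4 || k == 5) (fun k => k == 4 || k == 5)) (xw S 4) (gam hP14) ?_ ?_ ?_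
    hr ?_ ?_ ?_
  · linarith
  · intro h t i q hq hb
    rcases cut_bdry S _ _ _ h t i hb with ⟨a1, a2, a3⟩ | ⟨a1, a2, a3⟩ | ⟨a1, a2, a3⟩ | ⟨a1, a2, a3⟩
    · have : t = 3 := by simpa using a3
      subst this a1 a2
      obtain ⟨b1, b2⟩ := edge0 S 3 q hq
      have e3 : (3 : Fin 8) + 1 = 4 := rfl
      rw [e3] at b1
      rw [gam_one, zero_add]
      refine le_trans ?_ b1
      rw [x3, x4]
      apply le_min <;> linarith
    · have : t = 7 := aux7 t a3
      subst this a2
      obtain ⟨b1, b2⟩ := edge0 S 7 q hq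
      have e3 : (7 : Fin 8) + 1 = 0 := rfl
      have e4 : (7 : Fin 8) + 4 = 3 := rfl
      rw [e3] at b1
      rw [e4, one_mul] at a1
      rw [a1, gam_Tl3]
      have : (-3 - √3) / 2 + S + 1 + √3 ≤ min (xw S 7) (xw S 0) := by
        rw [x7, x0]
        apply le_min <;> linarith
      rw [x4]
      linarith
    · simp at a3
    · simp at a3
  · intro h t i q hq hb
    have hPP : ∀ t, Cut 1 (fun _ => false) (fun k => k == 3) hP14 t := by
      intro t
      right
      exact ⟨3, rfl, by decide +kernel⟩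
    rcases cut_bdry S _ _ _ h t i hb with ⟨a1, a2, a3⟩ | ⟨a1, a2, a3⟩ | ⟨a1, a2, a3⟩ | ⟨a1, a2, a3⟩
    · simp at a3
    · simp at a3
    · subst a1 a2
      rw [lab_one, mul_one]
      refine ⟨?_, hPP _, hPP _⟩
      obtain ⟨b1, b2⟩ := edge1 S t q hq
      have : q ≤ 0 := by
        refine b2.trans ?_
        apply max_le _ le_rfl
        have ht : t = 3 ∨ t = 5 := by
          have aux : ∀ t : Fin 8, (t == 4 || t == 5) ≠ (t + 1 == 4 || t + 1 == 5) →
            t = 3 ∨ t = 5 := by decide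
          exact aux t a3
        rcases ht with rfl | rfl
        · have e3 : (3 : Fin 8) + 1 = 4 := rfl
          rw [e3, x4]; linarith
        · have e3 : (5 : Fin 8) + 1 = 6 := rfl
          rw [e3, x6]; linarith
      linarith
    · subst a1 a2
      rw [lab_two, mul_one]
      refine ⟨?_, hPP _, hPP _⟩
      obtain ⟨b1, b2⟩ := edge2 S t q hq
      have : q ≤ 0 := by
        refine b2.trans ?_
        apply max_le le_rfl
        have ht : t = 4 ∨ t = 6 := by
          have aux : ∀ t : Fin 8, (t == 4 || t == 5) ≠ (t - 1 == 4 || t - 1 == 5) →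
            t = 4 ∨ t = 6 := by decide
          exact aux t a3
        rcases ht with rfl | rfl
        · rw [x4]; linarith
        · rw [x6]; linarith
      linarith
  · rw [cut_at]; simp
  · rintro (⟨h, _⟩ | ⟨k, h4, h5⟩)
    · have h6 := congrArg FreeGroup.toWord h
      unfold hP14 at h6
      rw [toWord_upW] at h6
      simp [wP, upW] at h6
    · have h6 : fl hP14 1 = some (2, false) := by decide +kernel
      rw [h6] at h5
      revert h5 h4
      revert k
      decide
  · rw [cut_nbr]; decide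

theorem fw_M (S : ℝ) (h1 : -1 ≤ S) (h2 : S ≤ 1) (h3 : S ≤ -(17 / 100 : ℝ)) :
    -S - 17 / 100 ≤ fw S (wM ++ [3]) := by
  obtain ⟨x0, x1, x2, x3, x4, x5, x6, x7⟩ := xw_vals S
  have s1 := sq3_lo
  have s2 := sq3_hi
  have e1 : -S - 17 / 100 ≤ gam (Tl 5) - (gam hM14 + xw S 3) := by
    rw [x3, gam_hM14, gam_Tl5]; linarith
  refine e1.trans ?_
  unfold fw
  have e2 : (FreeGroup.mk (upW (wM ++ [3])) : G) = hM14 * Tl 3 := by
    rw [upW_append, ← FreeGroup.mul_mk, Tl_eq]
    rfl
  rw [e2]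
  apply le_VsO
  intro t q t' q' r hr
  refine two_cuts (ostri.real S) gam (gam_cross S)
    (Cut (Tl 5) (fun k => k == 2 || k == 3 || k == 4) (fun k => k == 2 || k == 3 || k == 4))
    (Cut hM14 (fun _ => false) (fun k => k == 3)) (gam (Tl 5)) (gam hM14 + xw S 3) ?_ ?_ ?_
    hr ?_ ?_ ?_
  · linarith
  · intro h t i q hq hb
    rcases cut_bdry S _ _ _ h t i hb with ⟨a1, a2, a3⟩ | ⟨a1, a2, a3⟩ | ⟨a1, a2, a3⟩ | ⟨a1, a2, a3⟩
    · simp at a3
    · simp at a3
    · subst a1 a2
      obtain ⟨b1, b2⟩ := edge1 S t q hq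
      have : 0 ≤ q := by
        refine le_trans ?_ b1
        apply le_min _ le_rfl
        have ht : t = 1 ∨ t = 4 := by
          have aux : ∀ t : Fin 8, (t == 2 || t == 3 || t == 4) ≠
            (t + 1 == 2 || t + 1 == 3 || t + 1 == 4) → t = 1 ∨ t = 4 := by decide
          exact aux t a3
        rcases ht with rfl | rfl
        · have e3 : (1 : Fin 8) + 1 = 2 := rfl
          rw [e3, x2]; linarith
        · have e3 : (4 : Fin 8) + 1 = 5 := rfl
          rw [e3, x5]; linarith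
      linarith
    · subst a1 a2
      obtain ⟨b1, b2⟩ := edge2 S t q hq
      have : 0 ≤ q := by
        refine le_trans ?_ b1
        apply le_min le_rfl
        have ht : t = 2 ∨ t = 5 := by
          have aux : ∀ t : Fin 8, (t == 2 || t == 3 || t == 4) ≠
            (t - 1 == 2 || t - 1 == 3 || t - 1 == 4) → t = 2 ∨ t = 5 := by decide
          exact aux t a3
        rcases ht with rfl | rfl
        · rw [x2]; linarith
        · rw [x5]; linarith
      linarith
  · intro h t i q hq hb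
    rcases cut_bdry S _ _ _ h t i hb with ⟨a1, a2, a3⟩ | ⟨a1, a2, a3⟩ | ⟨a1, a2, a3⟩ | ⟨a1, a2, a3⟩
    · have : t = 3 := by simpa using a3
      subst this a1 a2
      refine ⟨?_, ?_, ?_⟩
      · obtain ⟨b1, b2⟩ := edge0 S 3 q hq
        have e3 : (3 : Fin 8) + 1 = 4 := rfl
        rw [e3] at b2
        have : max (xw S 3) (xw S 4) ≤ xw S 3 := by
          rw [x3, x4]
          apply max_le <;> linarith
        linarith
      · right
        exact ⟨2, rfl, by decide +kernel⟩
      · right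
        rw [lab_zero]
        exact ⟨2, rfl, by decide +kernel⟩
    · have : t = 7 := aux7 t a3
      subst this a2
      have e4 : (7 : Fin 8) + 4 = 3 := rfl
      rw [e4] at a1
      subst a1
      refine ⟨?_, ?_, ?_⟩
      · obtain ⟨b1, b2⟩ := edge0 S 7 q hq
        have e3 : (7 : Fin 8) + 1 = 0 := rfl
        rw [e3] at b2
        rw [gam_mul, gam_Tl3]
        have : max (xw S 7) (xw S 0) ≤ (1 - √3) / 2 + S + 1 + √3 := by
          rw [x7, x0]
          apply max_le <;> linarith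
        rw [x3]
        linarith
      · right
        exact ⟨2, rfl, by decide +kernel⟩
      · right
        rw [lab_zero]
        exact ⟨2, rfl, by decide +kernel⟩
    · simp at a3
    · simp at a3
  · rintro (⟨h, _⟩ | ⟨k, h4, h5⟩)
    · have h6 := congrArg FreeGroup.toWord h
      rw [Tl_eq] at h6
      simp at h6
    · have h6 : fl (Tl 5) 1 = some (1, true) := by decide +kernel
      rw [h6] at h5
      revert h5 h4
      revert k
      decide
  · rintro (⟨h, _⟩ | ⟨k, h4, h5⟩)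
    · have h6 := congrArg FreeGroup.toWord h
      unfold hM14 at h6
      rw [toWord_upW] at h6
      simp [wM, upW] at h6
    · have h6 : fl hM14 1 = some (0, false) := by decide +kernel
      rw [h6] at h5
      revert h5 h4
      revert k
      decide
  · rw [cut_nbr]; decide

theorem fw_ge_length (hA : Stmt_VsAdd) {S : ℝ} (h1 : 1 / 4 ≤ |S|) (h2 : |S| ≤ 1)
    (l : List (Fin 4)) : (8 / 100 : ℝ) * l.length ≤ fw S (sgn 5 l) := by
  induction l with
  | nil => simpa using fw_nonneg S (sgn 5 [])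
  | cons a l ih =>
    have h3 : sgn 5 (a :: l) = sgn 5 [a] ++ sgn 5 l := by
      rw [← sgn_append]; rfl
    rw [h3]
    have h4 := fw_append hA h2 (sgn 5 [a]) (sgn 5 l)
    have h5 : (8 / 100 : ℝ) ≤ fw S (sgn 5 [a]) := by
      obtain ⟨h6, h7⟩ := abs_le.1 h2
      rcases le_total 0 S with h8 | h8
      · rw [abs_of_nonneg h8] at h1
        have h9 := fw_P S h6 h7 (by linarith)
        have h10 := fw_infix hA h2 (wP_infix a)
        linarith
      · rw [abs_of_nonpos h8] at h1
        have h9 := fw_M S h6 h7 (by linarith)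
        have h10 := fw_infix hA h2 (wM_infix a)
        linarith
    rw [List.length_cons]
    push_cast
    linarith

theorem grow_main (hA : Stmt_VsAdd) : Stmt_Grow := by
  have hl := lam_pos
  refine ⟨(8 / 100) / 20 / lam ^ 5, (8 / 100) / 20, by positivity, ?_⟩
  intro S h1 h2 m x
  rw [word_eq]
  change _ ≤ fw S _
  rcases lt_or_ge m 5 with h3 | h3
  · refine le_trans ?_ (fw_nonneg S _)
    have h4 : lam ^ m ≤ lam ^ 5 := pow_le_pow_right₀ one_lt_lam.le h3.le
    have h5 : (8 / 100 : ℝ) / 20 / lam ^ 5 * lam ^ m ≤ (8 / 100) / 20 := by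
      rw [div_mul_eq_mul_div, div_le_iff₀ (by positivity)]
      exact mul_le_mul_of_nonneg_left h4 (by norm_num)
    linarith
  · obtain ⟨n, rfl⟩ := Nat.exists_eq_add_of_le h3
    rw [sgn_add]
    have h4 := fw_ge_length hA h1 h2 (sgn n (st x))
    have h5 := length_sgn n x
    have h6 : (8 / 100 : ℝ) / 20 / lam ^ 5 * lam ^ (5 + n) = (8 / 100) * (lam ^ n / 20) := by
      rw [pow_add]
      field_simp
    rw [h6]
    nlinarith

end Pool.Agent.CircleShift.GrowAux

theorem Pool.Agent.CircleShift.stmt_Grow (hA : Pool.Agent.CircleShift.Stmt_VsAdd) :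
    Pool.Agent.CircleShift.Stmt_Grow := Pool.Agent.CircleShift.GrowAux.grow_main hA
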