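import Pool.Agent.Work.MP_0fc146_gt_98.Line
import Pool.Agent.Work.MP_0fc146_gt_helper72.TREEpath

/-!
# Block L : L1, L2, L3, L4
-/

noncomputable section

open scoped Topology
open Filter

namespace Pool.Agent.CircleShift.LAux

theorem lenData_mono {nrm len : G → ℝ} {C C' : ℝ} (h : LenData nrm len C) (hC : C ≤ C') :
    LenData nrm len C' where
  nn := h.nn
  mul g g' := by have := h.mul g g'; linarith
  inv g := by have := h.inv g; linarith
  gen i := by have := h.gen i; linarith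
  conj := h.conj
  le g := by have := h.le g; linarith
  pow := h.pow

theorem na_mono {nrm : G → ℝ} {C C' : ℝ} (h : NA nrm C) (hC : C ≤ C') : NA nrm C' := by
  intro g w h1 h2
  have := h g w h1 h2
  linarith

theorem wid_lo (j : Fin 3) (x : Fin 4) : (1 / 100 : ℝ) ≤ wid j x := by
  have h1 := sq3_lo
  have h2 := sq3_hi
  unfold wid
  fin_cases j <;> fin_cases x <;> simp [widTab, z3] <;> linarith

theorem wlen_posW_cons (j : Fin 3) (a : Fin 4) (l : List (Fin 4)) :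
    wlen j (posW (a :: l)) = wid j a + wlen j (posW l) := by
  simp [wlen, posW]

theorem wlen_le_length (hS : Stmt_Sub) (j : Fin 3) (l : List (Fin 4)) :
    wlen j (posW l) ≤ l.length := by
  induction l with
  | nil => simp [wlen, posW]
  | cons a l ih =>
    rw [wlen_posW_cons, List.length_cons]
    push_cast
    linarith [(hS.2.2.2 j a).2]

theorem length_le_wlen (j : Fin 3) (l : List (Fin 4)) :
    (l.length : ℝ) ≤ 100 * wlen j (posW l) := by
  induction l with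
  | nil => simp [wlen, posW]
  | cons a l ih =>
    rw [wlen_posW_cons, List.length_cons]
    push_cast
    linarith [wid_lo j a]

theorem wnorm_le_norm (hS : Stmt_Sub) (j : Fin 3) (g : G) : wnorm j g ≤ g.norm := by
  unfold wnorm FreeGroup.norm
  generalize g.toWord = w
  induction w with
  | nil => simp [wlen]
  | cons a l ih =>
    have h1 : wlen j (a :: l) = wid j a.1 + wlen j l := by simp [wlen]
    rw [h1, List.length_cons]
    push_cast
    linarith [(hS.2.2.2 j a.1).2]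

theorem length_pathSub_ge (hS : Stmt_Sub) {j i : Fin 3} {p : List (Fin 13)} (h : RPath j i p)
    (x : Fin 4) : lam ^ p.length / 100 ≤ ((pathSub p x).length : ℝ) := by
  refine le_trans ?_ (wlen_le_length hS j _)
  rw [hS.2.2.1 j i p h x]
  have h1 := mul_le_mul_of_nonneg_left (wid_lo i x) (pow_pos lam_pos p.length).le
  linarith

theorem length_pathSub_le (hS : Stmt_Sub) {j i : Fin 3} {p : List (Fin 13)} (h : RPath j i p)
    (x : Fin 4) : ((pathSub p x).length : ℝ) ≤ 100 * lam ^ p.length := by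
  refine (length_le_wlen j _).trans ?_
  rw [hS.2.2.1 j i p h x]
  have h1 := mul_le_mul_of_nonneg_left (hS.2.2.2 i x).2.le (pow_pos lam_pos p.length).le
  linarith

theorem exists_lip' (φ : MulAut G) : ∃ L : ℝ, 1 ≤ L ∧ ∀ g, ((φ g).norm : ℝ) ≤ L * g.norm := by
  obtain ⟨N, _, hN⟩ := exists_lip φ.toMonoidHom
  refine ⟨N + 1, by linarith [Nat.cast_nonneg (α := ℝ) N], fun g => ?_⟩
  have h1 : ((φ g).norm : ℝ) ≤ N * g.norm := by exact_mod_cast hN g
  have h2 : (0 : ℝ) ≤ g.norm := Nat.cast_nonneg _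
  linarith

/-! ### L1 -/

theorem three {P : Fin 3 → ℝ → Prop} (h : ∀ j, ∃ L, P j L)
    (mono : ∀ j L L', L ≤ L' → P j L → P j L') : ∃ L, ∀ j, P j L := by
  choose f hf using h
  refine ⟨max (f 0) (max (f 1) (f 2)), fun j => mono j (f j) _ ?_ (hf j)⟩
  fin_cases j
  · exact le_max_left _ _
  · exact (le_max_left _ _).trans (le_max_right _ _)
  · exact (le_max_right _ _).trans (le_max_right _ _)

theorem l1 (hT : Stmt_T) (hX : Stmt_XNA) (hS : Stmt_Sub) (hVV : Stmt_VV) : Stmt_L1 := by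
  obtain ⟨C, hC⟩ := three (P := fun j C => LenData
      (fun g => xnrm ((psiAut⁻¹ * (thAut j)⁻¹ : MulAut G) g))
      (fun g => xlen ((psiAut⁻¹ * (thAut j)⁻¹ : MulAut G) g)) C ∧
      NA (fun g => xnrm ((psiAut⁻¹ * (thAut j)⁻¹ : MulAut G) g)) C)
    (fun j => by
      obtain ⟨C, c₀, C₀, h0, h1, h2, h3⟩ := hX (psiAut⁻¹ * (thAut j)⁻¹)
      exact ⟨C, h1, h2⟩)
    (fun j L L' h h' => ⟨lenData_mono h'.1 h, na_mono h'.2 h⟩)
  obtain ⟨M, hM⟩ := three (P := fun j M => 0 < M ∧ ∀ l : List (Fin 4),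
      M⁻¹ * l.length - M ≤ xnrm ((psiAut⁻¹ * (thAut j)⁻¹ : MulAut G) (posG l)))
    (fun j => by
      obtain ⟨C, c₀, C₀, h0, h1, h2, h3⟩ := hX (psiAut⁻¹ * (thAut j)⁻¹)
      have h5 : (0 : ℝ) < c₀⁻¹ := inv_pos.2 h0
      refine ⟨c₀⁻¹ + |C₀|, by positivity, fun l => ?_⟩
      have h4 := h3 l
      have h6 : (c₀⁻¹ + |C₀|)⁻¹ ≤ c₀ := by
        rw [inv_le_comm₀ (by positivity) h0]
        linarith [abs_nonneg C₀]
      have h7 := mul_le_mul_of_nonneg_right h6 (Nat.cast_nonneg (α := ℝ) l.length)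
      linarith [le_abs_self C₀])
    (fun j L L' h h' => ⟨h'.1.trans_le h, fun l => by
      have h1 := h'.2 l
      have h2 : L'⁻¹ ≤ L⁻¹ := inv_anti₀ h'.1 h
      have h3 := mul_le_mul_of_nonneg_right h2 (Nat.cast_nonneg (α := ℝ) l.length)
      linarith⟩)
  have hMpos : 0 < M := (hM 0).1
  obtain ⟨L, hL⟩ := three (P := fun i L => 1 ≤ L ∧ ∀ g, ((thAut i g).norm : ℝ) ≤ L * g.norm)
    (fun i => exists_lip' (thAut i))
    (fun j L L' h h' => ⟨h'.1.trans h, fun g => (h'.2 g).trans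
      (mul_le_mul_of_nonneg_right h (Nat.cast_nonneg _))⟩)
  have hL1 : 1 ≤ L := (hL 0).1
  obtain ⟨Q, β, c₁, hQ, hβ, hβ1, hc₁, hT⟩ := hT C (M⁻¹ / 100) M (by positivity)
  refine ⟨Q * L / c₁, β, c₁, by positivity, hβ, hβ1, hc₁, ?_⟩
  intro j i p hp
  obtain ⟨κ, hκ⟩ := hT _ _ (hC j).1 (hC j).2
  obtain ⟨k1, k2, k3, k4⟩ := hκ j i p hp (by
    intro q hq x
    obtain ⟨q', rfl⟩ := hq
    obtain ⟨i', hi', _⟩ := rpath_split hp
    have h1 := (hM j).2 (pathSub q x)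
    rw [hS.1]
    have h2 := length_pathSub_ge hS hi' x
    have h3 := mul_le_mul_of_nonneg_left h2 (inv_pos.2 hMpos).le
    have h4 : M⁻¹ / 100 * lam ^ q.length = M⁻¹ * (lam ^ q.length / 100) := by ring
    rw [h4]
    linarith)
  refine ⟨κ p, k1, k2, fun s hs g => ?_⟩
  have h1 := k4 s hs (thAut i g)
  rw [hVV.2.2.1 i _ (pathMap_mem hp hs) g] at h1
  have h2 : 0 < κ p * lam ^ p.length := mul_pos (hc₁.trans_le k1) (pow_pos lam_pos _)
  have h3 : ell ((thAut j)⁻¹ (pathAut p (thAut i g))) / (κ p * lam ^ p.length) -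
      VV (pathMap p s) g = (ell ((thAut j)⁻¹ (pathAut p (thAut i g))) -
        κ p * lam ^ p.length * VV (pathMap p s) g) / (κ p * lam ^ p.length) := by
    rw [sub_div, mul_div_cancel_left₀ _ h2.ne']
  rw [h3, abs_div, abs_of_pos h2, div_le_iff₀ h2]
  refine h1.trans ?_
  have h4 : ((thAut i g).norm : ℝ) + 1 ≤ L * (g.norm + 1) := by
    have := (hL i).2 g
    linarith
  have hlp := pow_pos lam_pos p.length
  have hbp := pow_pos hβ p.length
  have h5 : 1 ≤ κ p / c₁ := by rw [le_div_iff₀ hc₁]; linarith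
  rw [mul_pow]
  have h6 : Q * L / c₁ * (↑g.norm + 1) * β ^ p.length * (κ p * lam ^ p.length) =
      (κ p / c₁) * (Q * (L * (g.norm + 1)) * (β ^ p.length * lam ^ p.length)) := by
    field_simp
  rw [h6]
  have h7 : 0 ≤ Q * (L * ((g.norm : ℝ) + 1)) * (β ^ p.length * lam ^ p.length) := by positivity
  have h8 : Q * (((thAut i g).norm : ℝ) + 1) * (β ^ p.length * lam ^ p.length) ≤
      Q * (L * (g.norm + 1)) * (β ^ p.length * lam ^ p.length) := by
    apply mul_le_mul_of_nonneg_right _ (by positivity)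
    exact mul_le_mul_of_nonneg_left h4 hQ
  refine h8.trans ?_
  exact le_mul_of_one_le_left h7 h5

/-! ### The path `2, 2, …, 2` -/

/-- The path of `m` roles 2. -/
def rep (m : ℕ) : List (Fin 13) := List.replicate m 2

theorem rep_succ (m : ℕ) : rep (m + 1) = 2 :: rep m := rfl

theorem rep_length (m : ℕ) : (rep m).length = m := List.length_replicate

theorem rpath_rep (m : ℕ) : RPath 0 0 (rep m) := by
  induction m with
  | zero => exact RPath.nil 0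
  | succ m ih => exact RPath.cons 2 (rep m) 0 ih

theorem pathAut_rep (m : ℕ) : pathAut (rep m) = uAut ^ m := by
  induction m with
  | zero => rfl
  | succ m ih => rw [rep_succ, pathAut_cons, ih, pow_succ']; rfl

theorem pathMap_rep (m : ℕ) : pathMap (rep m) 0 = 0 := by
  induction m with
  | zero => rfl
  | succ m ih =>
    rw [rep_succ, pathMap_cons, roleMap_two, zero_div, ih]

theorem prefix_rep {q : List (Fin 13)} {m : ℕ} (h : q <+: rep m) : q = rep q.length := by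
  have h1 : ∀ x ∈ q, x = 2 := by
    intro x hx
    exact List.eq_of_mem_replicate (h.subset hx)
  exact List.eq_replicate_of_mem h1

theorem rep_prefix {m n : ℕ} (h : m ≤ n) : rep m <+: rep n := by
  obtain ⟨k, rfl⟩ := Nat.exists_eq_add_of_le h
  exact ⟨rep k, by unfold rep; rw [List.replicate_append_replicate]⟩

theorem kap_lim (κ : ℕ → ℝ) (Q β c₁ : ℝ) (hβ : 0 < β) (hβ1 : β < 1)
    (h : ∀ m n, m ≤ n → |κ n - κ m| ≤ Q * β ^ m) (h1 : ∀ m, c₁ ≤ κ m ∧ κ m ≤ c₁⁻¹) :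
    ∃ b, c₁ ≤ b ∧ b ≤ c₁⁻¹ ∧ ∀ m, |κ m - b| ≤ Q * β ^ m := by
  have ht : Tendsto (fun N : ℕ => Q * β ^ N + Q * β ^ N) atTop (𝓝 0) := by
    have h2 := (tendsto_pow_atTop_nhds_zero_of_lt_one hβ.le hβ1).const_mul Q
    have h3 := h2.add h2
    simpa using h3
  have hc : CauchySeq κ := by
    refine cauchySeq_of_le_tendsto_0 (fun N : ℕ => Q * β ^ N + Q * β ^ N) ?_ ht
    intro n m N hn hm
    rw [Real.dist_eq]
    have h2 : κ n - κ m = (κ n - κ N) - (κ m - κ N) := by ring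
    rw [h2]
    exact (abs_sub _ _).trans (add_le_add (h N n hn) (h N m hm))
  obtain ⟨b, hb⟩ := cauchySeq_tendsto_of_complete hc
  refine ⟨b, ge_of_tendsto' hb (fun m => (h1 m).1), le_of_tendsto' hb (fun m => (h1 m).2), ?_⟩
  intro m
  have h4 : Tendsto (fun n => |κ m - κ n|) atTop (𝓝 |κ m - b|) :=
    (tendsto_const_nhds.sub hb).abs
  refine le_of_tendsto h4 ?_
  filter_upwards [eventually_ge_atTop m] with n hn
  rw [abs_sub_comm]
  exact h m n hn

theorem rep_T (hT : Stmt_T) (hCo : Stmt_Coarse) (hS : Stmt_Sub) (hV : Stmt_VConj) :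
    ∀ C c₀ C₀ : ℝ, 0 < c₀ → ∃ Q β c₁ : ℝ, 0 ≤ Q ∧ 0 < β ∧ β < 1 ∧ 0 < c₁ ∧
    ∀ nrm len : G → ℝ, LenData nrm len C → NA nrm C →
    (∀ (m : ℕ) x, c₀ * lam ^ m - C₀ ≤ nrm ((uAut ^ m) (FreeGroup.of x))) →
    ∃ b, c₁ ≤ b ∧ b ≤ c₁⁻¹ ∧ ∀ (m : ℕ) g, |len ((uAut ^ m) g) - b * lam ^ m * V 0 0 g| ≤
      Q * (g.norm + 1) * (β * lam) ^ m := by
  intro C c₀ C₀ h0
  obtain ⟨Q, β, c₁, hQ, hβ, hβ1, hc₁, hT⟩ := hT C c₀ C₀ h0
  refine ⟨2 * Q, β, c₁, by positivity, hβ, hβ1, hc₁, ?_⟩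
  intro nrm len hl hn hg
  obtain ⟨κ, hκ⟩ := hT nrm len hl hn
  have h00 : (0 : ℝ) ∈ K 0 := mem_of_mem_nhds K0_nhds
  have key : ∀ m, c₁ ≤ κ (rep m) ∧ κ (rep m) ≤ c₁⁻¹ ∧
      (∀ q, q <+: rep m → |κ (rep m) - κ q| ≤ Q * β ^ q.length) ∧
      ∀ s ∈ K 0, ∀ g, |len (pathAut (rep m) g) - κ (rep m) * lam ^ (rep m).length *
        V 0 (pathMap (rep m) s) g| ≤ Q * (g.norm + 1) * (β * lam) ^ (rep m).length := by
    intro m
    refine hκ 0 0 (rep m) (rpath_rep m) ?_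
    intro q hq x
    rw [prefix_rep hq, rep_length, pathAut_rep]
    exact hg _ _
  obtain ⟨b, hb1, hb2, hb3⟩ := kap_lim (fun m => κ (rep m)) Q β c₁ hβ hβ1
    (fun m n hmn => by
      have := (key n).2.2.1 (rep m) (rep_prefix hmn)
      rwa [rep_length] at this)
    (fun m => ⟨(key m).1, (key m).2.1⟩)
  refine ⟨b, hb1, hb2, fun m g => ?_⟩
  have h1 := (key m).2.2.2 0 h00 g
  rw [pathAut_rep, pathMap_rep, rep_length] at h1
  have h2 : |κ (rep m) - b| ≤ Q * β ^ m := hb3 m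
  have h3 : V 0 0 g ≤ g.norm := by
    obtain ⟨C', _, hC'⟩ := hCo
    exact ((hC' 0 0 h00).1 g).trans (wnorm_le_norm hS 0 g)
  have h4 : 0 ≤ V 0 0 g := (hV _ g 1).2
  have h5 : |(κ (rep m) - b) * (lam ^ m * V 0 0 g)| ≤ Q * (g.norm + 1) * (β * lam) ^ m := by
    have hlp := pow_pos lam_pos m
    rw [abs_mul, abs_of_nonneg (mul_nonneg hlp.le h4), mul_pow]
    calc |κ (rep m) - b| * (lam ^ m * V 0 0 g) ≤ (Q * β ^ m) * (lam ^ m * (g.norm + 1)) := by
          apply mul_le_mul h2 _ (by positivity) (by positivity)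
          apply mul_le_mul_of_nonneg_left _ hlp.le
          linarith
      _ = Q * (g.norm + 1) * (β ^ m * lam ^ m) := by ring
  have h6 : len ((uAut ^ m) g) - b * lam ^ m * V 0 0 g =
      (len ((uAut ^ m) g) - κ (rep m) * lam ^ m * V 0 0 g) +
        (κ (rep m) - b) * (lam ^ m * V 0 0 g) := by ring
  rw [h6]
  refine (abs_add_le _ _).trans ?_
  linarith

theorem u_inv_pow (hR : Stmt_Rho) (m : ℕ) : uAut⁻¹ ^ m = rhoAut * uAut ^ m * rhoAut := by
  have h1 : rhoAut⁻¹ = rhoAut := by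
    rw [inv_eq_iff_mul_eq_one]; exact hR.1
  have h2 : uAut⁻¹ = rhoAut * uAut * rhoAut⁻¹ := by rw [h1]; exact hR.2.1.symm
  rw [h2, conj_pow, h1]

theorem u_inv_pow_apply (hR : Stmt_Rho) (m : ℕ) (g : G) :
    (uAut⁻¹ ^ m) g = rhoAut ((uAut ^ m) (rhoAut g)) := by
  rw [u_inv_pow hR]; rfl

theorem l2 (hT : Stmt_T) (hX : Stmt_XNA) (hCo : Stmt_Coarse) (hS : Stmt_Sub) (hV : Stmt_VConj)
    (hR : Stmt_Rho) : Stmt_L2 := by
  intro κ
  obtain ⟨C, c₀, C₀, h0, h1, h2, h3⟩ := hX (psiAut⁻¹ * κ * rhoAut)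
  obtain ⟨Q, β, c₁, hQ, hβ, hβ1, hc₁, hT⟩ := rep_T hT hCo hS hV C (c₀ / 100) C₀ (by positivity)
  obtain ⟨b, hb1, hb2, hb3⟩ := hT _ _ h1 h2 (by
    intro m x
    have h4 := h3 (pathSub (rep m) x)
    rw [← hS.1, pathAut_rep] at h4
    have h5 := length_pathSub_ge hS (rpath_rep m) x
    rw [rep_length] at h5
    have h6 := mul_le_mul_of_nonneg_left h5 h0.le
    have h7 : c₀ / 100 * lam ^ m = c₀ * (lam ^ m / 100) := by ring
    rw [h7]
    linarith)
  refine ⟨b, hc₁.trans_le hb1, fun g => ?_⟩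
  rw [tendsto_iff_dist_tendsto_zero]
  have ht : Tendsto (fun m : ℕ => Q * ((rhoAut g).norm + 1) * β ^ m) atTop (𝓝 0) := by
    have h8 := (tendsto_pow_atTop_nhds_zero_of_lt_one hβ.le hβ1).const_mul
      (Q * (((rhoAut g).norm : ℝ) + 1))
    simpa using h8
  refine squeeze_zero (fun m => dist_nonneg) (fun m => ?_) ht
  have h9 := hb3 m (rhoAut g)
  have h10 : ell (κ ((uAut⁻¹ ^ m) g)) = xlen ((psiAut⁻¹ * κ * rhoAut) ((uAut ^ m) (rhoAut g))) := by
    rw [u_inv_pow_apply hR]; rfl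
  have hlp := pow_pos lam_pos m
  rw [Real.dist_eq, h10]
  unfold HH
  have h11 : xlen ((psiAut⁻¹ * κ * rhoAut) ((uAut ^ m) (rhoAut g))) / lam ^ m -
      b * V 0 0 (rhoAut g) = (xlen ((psiAut⁻¹ * κ * rhoAut) ((uAut ^ m) (rhoAut g))) -
        b * lam ^ m * V 0 0 (rhoAut g)) / lam ^ m := by
    field_simp
  rw [h11, abs_div, abs_of_pos hlp, div_le_iff₀ hlp]
  refine h9.trans (le_of_eq ?_)
  rw [mul_pow]
  ring

theorem VV_lam_pow (hVV : Stmt_VV) (m : ℕ) (s : ℝ) (g : G) :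
    VV (lam ^ m * s) g = lam ^ m * VV s ((uAut⁻¹ ^ m) g) := by
  induction m generalizing g with
  | zero => simp
  | succ m ih =>
    have h1 : lam ^ (m + 1) * s = lam * (lam ^ m * s) := by rw [pow_succ']; ring
    rw [h1, hVV.2.1, ih, pow_succ', pow_succ]
    have h2 : (uAut⁻¹ ^ m * uAut⁻¹) g = (uAut⁻¹ ^ m) (uAut⁻¹ g) := rfl
    rw [h2]
    ring

theorem l3 (hT : Stmt_T) (hN : Stmt_VNA) (hG : Stmt_Grow) (hCo : Stmt_Coarse) (hS : Stmt_Sub)
    (hV : Stmt_VConj) (hR : Stmt_Rho) (hVV : Stmt_VV) : Stmt_L3 := by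
  obtain ⟨C, hC⟩ := hN (psiAut⁻¹ * rhoAut)
  obtain ⟨c₀, C₀, h0, hG⟩ := hG
  obtain ⟨Q, β, c₁, hQ, hβ, hβ1, hc₁, hT⟩ := rep_T hT hCo hS hV C c₀ C₀ h0
  obtain ⟨L, hL1, hL⟩ := exists_lip' rhoAut
  have hl2 : 1 < lam ^ 2 := by nlinarith [one_lt_lam]
  have hl2' : 0 < lam ^ 2 := by linarith
  refine ⟨Q * L, β, c₁ / lam ^ 2, by positivity, hβ, hβ1, by positivity, ?_⟩
  intro s hs1 hs2
  have hS2 : |lam ^ 2 * s| ≤ 1 := by
    rw [abs_mul, abs_of_pos hl2']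
    rw [le_div_iff₀ hl2'] at hs2
    linarith
  have hS1 : 1 / 4 ≤ |lam ^ 2 * s| := by
    rw [abs_mul, abs_of_pos hl2']
    rw [div_le_iff₀ hl2'] at hs1
    linarith
  obtain ⟨b, hb1, hb2, hb3⟩ := hT _ _ (hC _ hS2).1 (hC _ hS2).2 (fun m x =>
    hG (lam ^ 2 * s) hS1 hS2 m x)
  refine ⟨b / lam ^ 2, div_le_div_of_nonneg_right hb1 hl2'.le, ?_, ?_⟩
  · rw [inv_div]
    have h1 : b / lam ^ 2 ≤ b := div_le_self (hc₁.le.trans hb1) hl2.le
    have h2 : c₁⁻¹ ≤ lam ^ 2 / c₁ := by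
      rw [div_eq_mul_inv]
      exact le_mul_of_one_le_left (inv_pos.2 hc₁).le hl2.le
    exact h1.trans (hb2.trans h2)
  · intro m g
    have hlp := pow_pos lam_pos m
    have h1 := hb3 m (rhoAut g)
    have h2 : VV s ((uAut⁻¹ ^ m) g) = (lam ^ 2)⁻¹ * VO (lam ^ 2 * s)
        ((psiAut⁻¹ * rhoAut) ((uAut ^ m) (rhoAut g))) := by
      have h3 := hVV.2.2.2.2 (lam ^ 2 * s) hS2 ((psiAut⁻¹ * rhoAut) ((uAut ^ m) (rhoAut g)))
      have h4 : lam ^ 2 * s / lam ^ 2 = s := mul_div_cancel_left₀ _ hl2'.ne'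
      rw [h4] at h3
      rw [← h3, u_inv_pow_apply hR]
      congr 1
      exact (MulAut.apply_inv_self G psiAut _).symm
    rw [VV_lam_pow hVV, h2]
    unfold HH
    have h5 : lam ^ m * ((lam ^ 2)⁻¹ * VO (lam ^ 2 * s)
        ((psiAut⁻¹ * rhoAut) ((uAut ^ m) (rhoAut g)))) / lam ^ (2 * m) -
        b / lam ^ 2 * V 0 0 (rhoAut g) = (lam ^ 2)⁻¹ * ((VO (lam ^ 2 * s)
        ((psiAut⁻¹ * rhoAut) ((uAut ^ m) (rhoAut g))) - b * lam ^ m * V 0 0 (rhoAut g)) /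
          lam ^ m) := by
      rw [two_mul, pow_add]
      field_simp
    rw [h5, abs_mul, abs_div, abs_of_pos hlp, abs_of_pos (inv_pos.2 hl2')]
    have h6 : |VO (lam ^ 2 * s) ((psiAut⁻¹ * rhoAut) ((uAut ^ m) (rhoAut g))) -
        b * lam ^ m * V 0 0 (rhoAut g)| / lam ^ m ≤ Q * L * (g.norm + 1) * β ^ m := by
      rw [div_le_iff₀ hlp]
      refine h1.trans ?_
      rw [mul_pow]
      have h7 : ((rhoAut g).norm : ℝ) + 1 ≤ L * (g.norm + 1) := by
        have := hL g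
        linarith
      have h8 : Q * (((rhoAut g).norm : ℝ) + 1) * (β ^ m * lam ^ m) ≤
          Q * (L * (g.norm + 1)) * (β ^ m * lam ^ m) := by
        have hbp := pow_pos hβ m
        apply mul_le_mul_of_nonneg_right _ (by positivity)
        exact mul_le_mul_of_nonneg_left h7 hQ
      refine h8.trans (le_of_eq (by ring))
    have h9 : (lam ^ 2)⁻¹ ≤ 1 := inv_le_one_of_one_le₀ hl2.le
    calc (lam ^ 2)⁻¹ * (|VO (lam ^ 2 * s) ((psiAut⁻¹ * rhoAut) ((uAut ^ m) (rhoAut g))) -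
        b * lam ^ m * V 0 0 (rhoAut g)| / lam ^ m) ≤
        1 * (|VO (lam ^ 2 * s) ((psiAut⁻¹ * rhoAut) ((uAut ^ m) (rhoAut g))) -
        b * lam ^ m * V 0 0 (rhoAut g)| / lam ^ m) := by
          apply mul_le_mul_of_nonneg_right h9 (by positivity)
      _ ≤ _ := by rw [one_mul]; exact h6

theorem l4 (hS : Stmt_Sub) (hR : Stmt_Rho) : Stmt_L4 := by
  obtain ⟨L, hL1, hL⟩ := exists_lip' rhoAut
  refine ⟨L * (100 * L), fun m g => ?_⟩
  have hlp := pow_pos lam_pos m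
  rw [u_inv_pow_apply hR]
  refine (hL _).trans ?_
  have h1 : ∀ x : Fin 4, ((((uAut ^ m) (FreeGroup.of x)).norm : ℕ) : ℝ) ≤ 100 * lam ^ m := by
    intro x
    rw [← pathAut_rep, hS.1]
    have h2 : (posG (pathSub (rep m) x)).norm ≤ (pathSub (rep m) x).length := by
      unfold posG
      refine FreeGroup.norm_mk_le.trans (le_of_eq ?_)
      simp [posW]
    have h3 := length_pathSub_le hS (rpath_rep m) x
    rw [rep_length] at h3
    exact le_trans (by exact_mod_cast h2) h3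
  have h2 : ∀ x : Fin 4 × Bool, (((uAut ^ m) (FreeGroup.mk [x])).norm) ≤ ⌊100 * lam ^ m⌋₊ := by
    rintro ⟨x, b⟩
    rw [Nat.le_floor_iff (by positivity)]
    cases b
    · have h3 : (FreeGroup.mk [(x, false)] : G) = (FreeGroup.of x)⁻¹ := by
        simp [FreeGroup.of, FreeGroup.inv_mk, FreeGroup.invRev]
      rw [h3, map_inv, FreeGroup.norm_inv_eq]
      exact h1 x
    · exact h1 x
  have h3 := norm_le_of_letters (uAut ^ m : MulAut G).toMonoidHom _ h2 (rhoAut g).toWord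
  rw [FreeGroup.mk_toWord] at h3
  have h4 : (((uAut ^ m) (rhoAut g)).norm : ℝ) ≤ ⌊100 * lam ^ m⌋₊ * (rhoAut g).norm := by
    exact_mod_cast h3
  have h5 : (⌊100 * lam ^ m⌋₊ : ℝ) ≤ 100 * lam ^ m := Nat.floor_le (by positivity)
  have h6 : (((uAut ^ m) (rhoAut g)).norm : ℝ) ≤ 100 * lam ^ m * (L * g.norm) := by
    refine h4.trans ?_
    exact mul_le_mul h5 (hL g) (Nat.cast_nonneg _) (by positivity)
  have h7 : L * ((((uAut ^ m) (rhoAut g)).norm : ℕ) : ℝ) ≤ L * (100 * lam ^ m * (L * g.norm)) :=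
    mul_le_mul_of_nonneg_left h6 (by linarith)
  refine h7.trans (le_of_eq (by ring))

end Pool.Agent.CircleShift.LAux

namespace Pool.Agent.CircleShift

theorem stmt_L1 (hT : Stmt_T) (hX : Stmt_XNA) (hS : Stmt_Sub) (hVV : Stmt_VV) : Stmt_L1 :=
  LAux.l1 hT hX hS hVV

theorem stmt_L2 (hT : Stmt_T) (hX : Stmt_XNA) (hCo : Stmt_Coarse) (hS : Stmt_Sub)
    (hV : Stmt_VConj) (hR : Stmt_Rho) : Stmt_L2 := LAux.l2 hT hX hCo hS hV hR

theorem stmt_L3 (hT : Stmt_T) (hN : Stmt_VNA) (hG : Stmt_Grow) (hCo : Stmt_Coarse)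
    (hS : Stmt_Sub) (hV : Stmt_VConj) (hR : Stmt_Rho) (hVV : Stmt_VV) : Stmt_L3 :=
  LAux.l3 hT hN hG hCo hS hV hR hVV

theorem stmt_L4 (hS : Stmt_Sub) (hR : Stmt_Rho) : Stmt_L4 := LAux.l4 hS hR

end Pool.Agent.CircleShift
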