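import Pool.Agent.Work.MP_0fc146_gt_98.Num

/-!
# Block LINE : PathV, VV, LimV, Cont
-/

noncomputable section

open scoped Topology
open Filter

namespace Pool.Agent.CircleShift

theorem stmt_PathV (hR : Stmt_Role) : Stmt_PathV := by
  intro j i p hp
  induction hp with
  | nil j =>
    intro s hs
    refine ⟨hs, fun g => ?_⟩
    simp [pathMap_nil, pathAut_nil]
  | cons r p i _ ih =>
    intro s hs
    obtain ⟨h1, h2⟩ := ih _ (roleMap_mem r hs)
    refine ⟨h1, fun g => ?_⟩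
    rw [pathMap_cons, h2 g, hR r s hs, pathAut_cons, MulAut.mul_apply, List.length_cons, pow_succ,
      mul_inv, mul_assoc]

/-! ### `VV` -/

theorem roleT_two : roleT 2 = 0 := by
  simp [roleT, roleB, z3]

theorem roleT_three : roleT 3 = 0 := by
  simp [roleT, roleB, z3]

theorem roleT_twelve : roleT 12 = 0 := by
  have : roleB 12 = (0, 0) := by decide
  simp [roleT, this, z3]

theorem roleMap_two (s : ℝ) : roleMap 2 s = s / lam := by
  unfold roleMap; rw [roleT_two, add_zero]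

theorem roleMap_three (s : ℝ) : roleMap 3 s = s / lam := by
  unfold roleMap; rw [roleT_three, add_zero]

theorem roleMap_twelve (s : ℝ) : roleMap 12 s = s / lam := by
  unfold roleMap; rw [roleT_twelve, add_zero]

theorem K0_div {s : ℝ} (h : s ∈ K 0) : s / lam ∈ K 0 := by
  rw [← roleMap_two]; exact roleMap_mem 2 h

theorem V0_div (hR : Stmt_Role) {s : ℝ} (h : s ∈ K 0) (g : G) :
    lam * V 0 (s / lam) (uAut⁻¹ g) = V 0 s g := by
  have h1 : V 0 (roleMap 2 s) (uAut⁻¹ g) = lam⁻¹ * V 0 s (roleAut 2 (uAut⁻¹ g)) :=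
    hR 2 s h (uAut⁻¹ g)
  rw [roleMap_two] at h1
  rw [h1]
  have h2 : roleAut 2 (uAut⁻¹ g) = g := MulAut.apply_inv_self G uAut g
  rw [h2, ← mul_assoc, mul_inv_cancel₀ lam_pos.ne', one_mul]

theorem K0_div_pow {s : ℝ} {n : ℕ} (h : s / lam ^ n ∈ K 0) (k : ℕ) : s / lam ^ (n + k) ∈ K 0 := by
  induction k with
  | zero => exact h
  | succ k ih =>
    have : s / lam ^ (n + (k + 1)) = s / lam ^ (n + k) / lam := by
      rw [← add_assoc, pow_succ, div_div]
    rw [this]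
    exact K0_div ih

theorem V0_div_pow (hR : Stmt_Role) {s : ℝ} {n : ℕ} (h : s / lam ^ n ∈ K 0) (g : G) (k : ℕ) :
    lam ^ (n + k) * V 0 (s / lam ^ (n + k)) ((uAut⁻¹ ^ (n + k)) g) =
      lam ^ n * V 0 (s / lam ^ n) ((uAut⁻¹ ^ n) g) := by
  induction k with
  | zero => rfl
  | succ k ih =>
    have h1 : s / lam ^ (n + (k + 1)) = s / lam ^ (n + k) / lam := by
      rw [← add_assoc, pow_succ, div_div]
    have h2 : (uAut⁻¹ ^ (n + (k + 1))) g = uAut⁻¹ ((uAut⁻¹ ^ (n + k)) g) := by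
      rw [← add_assoc, pow_succ']; rfl
    rw [h1, h2, ← ih, ← V0_div hR (K0_div_pow h k) ((uAut⁻¹ ^ (n + k)) g), ← add_assoc, pow_succ,
      mul_assoc]

theorem K0_nhds : K 0 ∈ 𝓝 (0 : ℝ) := by
  unfold K
  apply Icc_mem_nhds
  · have : lft 0 = (-3 + √3) / 2 := by simp [lft, endTab, z3]
    rw [this]; linarith [sq3_hi]
  · have : lft 0 = (-3 + √3) / 2 := by simp [lft, endTab, z3]
    rw [this]; linarith [sq3_lo]

theorem tendsto_div_pow (s : ℝ) : Tendsto (fun n : ℕ => s / lam ^ n) atTop (𝓝 0) := by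
  have h := tendsto_pow_atTop_nhds_zero_of_lt_one (inv_nonneg.2 lam_pos.le)
    (inv_lt_one_of_one_lt₀ one_lt_lam)
  have h2 := h.const_mul s
  rw [mul_zero] at h2
  refine h2.congr (fun n => ?_)
  rw [inv_pow, div_eq_mul_inv]

theorem exists_K0 (s : ℝ) : ∃ n : ℕ, s / lam ^ n ∈ interior (K 0) := by
  have h := (tendsto_div_pow s).eventually (isOpen_interior.mem_nhds
    (mem_interior_iff_mem_nhds.2 K0_nhds))
  exact h.exists

theorem VV_eq (hR : Stmt_Role) {s : ℝ} {n : ℕ} (h : s / lam ^ n ∈ K 0) (g : G) :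
    VV s g = lam ^ n * V 0 (s / lam ^ n) ((uAut⁻¹ ^ n) g) := by
  unfold VV
  have h1 : sInf {n : ℕ | s / lam ^ n ∈ K 0} ≤ n := Nat.sInf_le h
  have h2 : s / lam ^ (sInf {n : ℕ | s / lam ^ n ∈ K 0}) ∈ K 0 :=
    Nat.sInf_mem (s := {n : ℕ | s / lam ^ n ∈ K 0}) ⟨n, h⟩
  obtain ⟨k, hk⟩ := Nat.exists_eq_add_of_le h1
  generalize sInf {n : ℕ | s / lam ^ n ∈ K 0} = m at *
  subst hk
  exact (V0_div_pow hR h2 g k).symm

theorem VV_lam (hR : Stmt_Role) (s : ℝ) (g : G) : VV (lam * s) g = lam * VV s (uAut⁻¹ g) := by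
  obtain ⟨n, hn⟩ := exists_K0 s
  have hn' := interior_subset hn
  have h1 : lam * s / lam ^ (n + 1) = s / lam ^ n := by
    rw [pow_succ']
    exact mul_div_mul_left _ _ lam_pos.ne'
  have h2 : lam * s / lam ^ (n + 1) ∈ K 0 := by rw [h1]; exact hn'
  rw [VV_eq hR h2, VV_eq hR hn', h1]
  have h3 : (uAut⁻¹ ^ (n + 1)) g = (uAut⁻¹ ^ n) (uAut⁻¹ g) := by
    rw [pow_succ]; rfl
  rw [h3, pow_succ', mul_assoc]

theorem VV_K0 (hR : Stmt_Role) {s : ℝ} (h : s ∈ K 0) (g : G) : VV s g = V 0 s g := by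
  have h1 : s / lam ^ 0 ∈ K 0 := by simpa using h
  rw [VV_eq hR h1]
  simp

theorem VV_th (hR : Stmt_Role) (j : Fin 3) {s : ℝ} (h : s ∈ K j) (g : G) :
    V j s (thAut j g) = VV s g := by
  fin_cases j
  · exact (VV_K0 hR h g).symm
  · have h1 : V 0 (roleMap 12 s) (uAut⁻¹ g) = lam⁻¹ * V 1 s (roleAut 12 (uAut⁻¹ g)) :=
      hR 12 s h _
    rw [roleMap_twelve] at h1
    have h0 : s / lam ∈ K 0 := by rw [← roleMap_twelve]; exact roleMap_mem 12 h
    have h2 : s / lam ^ 1 ∈ K 0 := by rw [pow_one]; exact h0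
    change V 1 s (roleAut 12 (uAut⁻¹ g)) = _
    rw [VV_eq hR h2, pow_one, pow_one, h1, ← mul_assoc, mul_inv_cancel₀ lam_pos.ne', one_mul]
  · have h1 : V 0 (roleMap 3 s) (uAut⁻¹ g) = lam⁻¹ * V 2 s (roleAut 3 (uAut⁻¹ g)) :=
      hR 3 s h _
    rw [roleMap_three] at h1
    have h0 : s / lam ∈ K 0 := by rw [← roleMap_three]; exact roleMap_mem 3 h
    have h2 : s / lam ^ 1 ∈ K 0 := by rw [pow_one]; exact h0
    change V 2 s (roleAut 3 (uAut⁻¹ g)) = _
    rw [VV_eq hR h2, pow_one, pow_one, h1, ← mul_assoc, mul_inv_cancel₀ lam_pos.ne', one_mul]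

theorem small_mem_K0 {S : ℝ} (h : |S| ≤ 1) : S / lam ^ 2 ∈ K 0 := by
  have h1 : lft 0 = (-3 + √3) / 2 := by simp [lft, endTab, z3]
  have h2 : (13 : ℝ) < lam ^ 2 := by nlinarith [lam_gt]
  have h3 : |S / lam ^ 2| ≤ 1 / 13 := by
    rw [abs_div, abs_of_pos (by positivity : (0 : ℝ) < lam ^ 2)]
    exact div_le_div₀ (by norm_num) h (by norm_num) h2.le
  obtain ⟨h4, h5⟩ := abs_le.1 h3
  unfold K
  rw [h1]
  constructor
  · linarith [sq3_hi]
  · linarith [sq3_lo]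

theorem stmt_VV (hR : Stmt_Role) (hO : Stmt_OChart) (hC : Stmt_VConj) : Stmt_VV := by
  have hP := stmt_PathV hR
  refine ⟨?_, VV_lam hR, fun j s hs g => VV_th hR j hs g, ?_, ?_⟩
  · intro s g h
    obtain ⟨n, hn⟩ := exists_K0 s
    have hn' := interior_subset hn
    rw [VV_eq hR hn', VV_eq hR hn', map_mul, map_mul, map_inv]
    congr 1
    exact (hC _ _ _).1
  · intro j i p hp s hs g
    obtain ⟨h1, h2⟩ := hP j i p hp s hs
    rw [← VV_th hR i h1 g, h2, ← VV_th hR j hs, MulAut.apply_inv_self]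
  · intro S hS g
    rw [VV_K0 hR (small_mem_K0 hS)]
    exact hO S hS g

/-! ### `LimV` -/

theorem posW_SH (l : List (Fin 4)) : SH (posW l) := by
  intro x hx y hy
  unfold posW at hx hy
  rw [List.mem_map] at hx hy
  obtain ⟨a, _, rfl⟩ := hx
  obtain ⟨b, _, rfl⟩ := hy
  rfl

theorem SH_invRev {w : List (Fin 4 × Bool)} (h : SH w) : SH (FreeGroup.invRev w) := by
  intro x hx y hy
  unfold FreeGroup.invRev at hx hy
  rw [List.mem_reverse, List.mem_map] at hx hy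
  obtain ⟨a, ha, rfl⟩ := hx
  obtain ⟨b, hb, rfl⟩ := hy
  simp only
  rw [h a ha b hb]

theorem limV_aux (hP : Stmt_PathV) (hC : Stmt_Coarse) (hPi : Stmt_Pieces) (hV : Stmt_VConj) :
    ∃ C : ℝ, 0 ≤ C ∧ ∀ j i p, RPath j i p → ∀ g : G,
      ∃ g' : G, IsConj (pathAut p g) g' ∧ CycRed g' ∧ Pieces g.norm g' ∧ ∀ s ∈ K j,
      |V i (pathMap p s) g - (lam ^ p.length)⁻¹ * wnorm j g'| ≤
        C * g.norm * (lam ^ p.length)⁻¹ := by
  obtain ⟨C, hC0, hC1⟩ := hC
  refine ⟨C, hC0, fun j i p hp g => ?_⟩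
  obtain ⟨g', L, h1, h2, h3, h4, _⟩ := hPi p g
  have h5 : Pieces g.norm g' := by
    refine ⟨L.map (fun x => if x.2 then posW x.1 else FreeGroup.invRev (posW x.1)), ?_, ?_, h4⟩
    · rw [List.length_map]; exact h3
    · intro w hw
      rw [List.mem_map] at hw
      obtain ⟨x, _, rfl⟩ := hw
      split_ifs
      · exact posW_SH _
      · exact SH_invRev (posW_SH _)
  refine ⟨g', h1, h2, h5, fun s hs => ?_⟩
  obtain ⟨c1, c2⟩ := hC1 j s hs
  have h6 : V j s (pathAut p g) = V j s g' := by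
    obtain ⟨d, hd⟩ := isConj_iff.1 h1
    rw [← hd]
    exact ((hV _ _ _).1).symm
  rw [(hP j i p hp s hs).2 g, h6]
  have h7 := c1 g'
  have h8 := c2 g' _ h2 h5
  have h9 : 0 < (lam ^ p.length)⁻¹ := by have := lam_pos; positivity
  rw [← mul_sub, abs_mul, abs_of_pos h9, mul_comm]
  apply mul_le_mul_of_nonneg_right _ h9.le
  rw [abs_le]
  constructor <;> linarith [mul_nonneg hC0 (Nat.cast_nonneg (α := ℝ) g.norm)]

theorem stmt_LimV (hP : Stmt_PathV) (hC : Stmt_Coarse) (hPi : Stmt_Pieces) (hV : Stmt_VConj) :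
    Stmt_LimV := by
  obtain ⟨C, hC0, h⟩ := limV_aux hP hC hPi hV
  refine ⟨C, hC0, fun j i p hp s hs g => ?_⟩
  obtain ⟨g', h1, h2, h3, h4⟩ := h j i p hp g
  exact ⟨g', h1, h2, h3, h4 s hs⟩

/-! ### `Cont` -/

theorem K_compact (j : Fin 3) : IsCompact (K j) := isCompact_Icc

theorem cyl_closed (j : Fin 3) (p : List (Fin 13)) : IsClosed (pathMap p '' K j) :=
  ((K_compact j).image (pathMap_cont p)).isClosed

theorem contOn_V (hP : Stmt_PathV) (hC : Stmt_Coarse) (hPi : Stmt_Pieces) (hV : Stmt_VConj)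
    (hCo : Stmt_Code) (i : Fin 3) (g : G) : ContinuousOn (fun s => V i s g) (K i) := by
  obtain ⟨C, hC0, hL⟩ := limV_aux hP hC hPi hV
  intro s hs
  rw [Metric.continuousWithinAt_iff']
  intro ε hε
  obtain ⟨n, hn⟩ : ∃ n : ℕ, 2 * C * g.norm * (lam ^ n)⁻¹ < ε := by
    have h := (tendsto_div_pow (2 * C * g.norm)).eventually (gt_mem_nhds hε)
    obtain ⟨n, hn⟩ := h.exists
    exact ⟨n, by rwa [div_eq_mul_inv] at hn⟩
  -- the finite set of indices
  have hfin : Set.Finite {x : Fin 3 × List (Fin 13) | x.2.length = n} := by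
    have h1 : {x : Fin 3 × List (Fin 13) | x.2.length = n} =
        Set.univ ×ˢ {l : List (Fin 13) | l.length = n} := by
      ext x; simp
    rw [h1]
    exact Set.finite_univ.prod (List.finite_length_eq (Fin 13) n)
  have hopen : (⋃ x ∈ {x : Fin 3 × List (Fin 13) | x.2.length = n ∧ s ∉ pathMap x.2 '' K x.1},
      pathMap x.2 '' K x.1)ᶜ ∈ 𝓝 s := by
    apply IsOpen.mem_nhds
    · rw [isOpen_compl_iff]
      refine (hfin.subset (fun x hx => hx.1)).isClosed_biUnion (fun x _ => cyl_closed x.1 x.2)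
    · simp only [Set.mem_compl_iff, Set.mem_iUnion, not_exists]
      intro x hx h
      exact hx.2 h
  have hev : ∀ᶠ t in 𝓝[K i] s, t ∈ K i ∧ t ∈ (⋃ x ∈ {x : Fin 3 × List (Fin 13) |
      x.2.length = n ∧ s ∉ pathMap x.2 '' K x.1}, pathMap x.2 '' K x.1)ᶜ := by
    refine Filter.Eventually.and (eventually_mem_nhdsWithin) ?_
    exact mem_nhdsWithin_of_mem_nhds hopen
  filter_upwards [hev] with t ht
  obtain ⟨j, p, hp, _, hpn, t', ht', htt⟩ := hCo.2.1 i t ht.1 n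
  have h1 : s ∈ pathMap p '' K j := by
    by_contra hcon
    apply ht.2
    simp only [Set.mem_iUnion]
    exact ⟨(j, p), ⟨hpn, hcon⟩, t', ht', htt⟩
  obtain ⟨s', hs', hss⟩ := h1
  obtain ⟨g', _, _, _, h4⟩ := hL j i p hp g
  have h5 := h4 s' hs'
  have h6 := h4 t' ht'
  rw [hss] at h5
  rw [htt] at h6
  rw [hpn] at h5 h6
  rw [Real.dist_eq]
  have h7 : V i t g - V i s g = (V i t g - (lam ^ n)⁻¹ * wnorm j g') -
      (V i s g - (lam ^ n)⁻¹ * wnorm j g') := by ring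
  rw [h7]
  refine (abs_sub _ _).trans_lt ?_
  linarith

theorem stmt_Cont (hR : Stmt_Role) (hC : Stmt_Coarse) (hPi : Stmt_Pieces) (hV : Stmt_VConj)
    (hCo : Stmt_Code) : Stmt_Cont := by
  intro g
  rw [continuous_iff_continuousAt]
  intro s
  obtain ⟨n, hn⟩ := exists_K0 s
  have h1 : Continuous (fun s : ℝ => s / lam ^ n) := by fun_prop
  have h2 : ∀ᶠ t in 𝓝 s, t / lam ^ n ∈ interior (K 0) :=
    h1.continuousAt.eventually (isOpen_interior.mem_nhds hn)
  have h3 : ContinuousAt (fun t => lam ^ n * V 0 (t / lam ^ n) ((uAut⁻¹ ^ n) g)) s := by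
    apply ContinuousAt.mul continuousAt_const
    have h4 := (contOn_V (stmt_PathV hR) hC hPi hV hCo 0 ((uAut⁻¹ ^ n) g)).continuousAt
      (mem_interior_iff_mem_nhds.1 hn)
    exact ContinuousAt.comp (f := fun t : ℝ => t / lam ^ n) (x := s)
      (g := fun s => V 0 s ((uAut⁻¹ ^ n) g)) h4 h1.continuousAt
  refine h3.congr ?_
  filter_upwards [h2] with t ht
  exact (VV_eq hR (interior_subset ht) g).symm

end Pool.Agent.CircleShift

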