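import Pool.Agent.Work.MP_0fc146_gt_h31.Alg

/-!
# Numbers in `ℤ[√3]`, maps of roles and paths
-/

noncomputable section

open scoped Topology
open Filter

namespace Pool.Agent.CircleShift

theorem sq3 : √3 * √3 = 3 := Real.mul_self_sqrt (by norm_num)

theorem sq3_pos : 0 < √3 := by positivity

theorem sq3_lo : (1.732 : ℝ) < √3 := by
  rw [show (1.732 : ℝ) = √(1.732 ^ 2) by rw [Real.sqrt_sq]; norm_num]
  exact Real.sqrt_lt_sqrt (by norm_num) (by norm_num)

theorem sq3_hi : √3 < (1.7321 : ℝ) := by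
  rw [show (1.7321 : ℝ) = √(1.7321 ^ 2) by rw [Real.sqrt_sq]; norm_num]
  exact Real.sqrt_lt_sqrt (by norm_num) (by norm_num)

theorem lam_pos : 0 < lam := by unfold lam; positivity

theorem lam_gt : (3.7 : ℝ) < lam := by unfold lam; linarith [sq3_lo]

theorem lam_lt : lam < (3.74 : ℝ) := by unfold lam; linarith [sq3_hi]

theorem one_lt_lam : 1 < lam := by linarith [lam_gt]

theorem lam_inv : lam⁻¹ = 2 - √3 := by
  apply inv_eq_of_mul_eq_one_left
  unfold lam
  nlinarith [sq3]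

theorem div_lam (s : ℝ) : s / lam = s * (2 - √3) := by
  rw [div_eq_mul_inv, lam_inv]

/-- Nonnegativity test. -/
def nn (x : ℤ × ℤ) : Bool := (decide (0 ≤ x.1) && decide (0 ≤ x.2)) ||
  (decide (0 ≤ x.1) && decide (3 * x.2 ^ 2 ≤ x.1 ^ 2)) ||
  (decide (0 ≤ x.2) && decide (x.1 ^ 2 ≤ 3 * x.2 ^ 2))

theorem nn_spec {x : ℤ × ℤ} (h : nn x = true) : 0 ≤ z3 x := by
  unfold nn at h
  simp only [Bool.or_eq_true, Bool.and_eq_true, decide_eq_true_eq] at h
  unfold z3
  have h3 := sq3
  have h4 := sq3_pos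
  rcases h with (⟨h1, h2⟩ | ⟨h1, h2⟩) | ⟨h1, h2⟩
  · have h1' : (0 : ℝ) ≤ x.1 := by exact_mod_cast h1
    have h2' : (0 : ℝ) ≤ x.2 := by exact_mod_cast h2
    positivity
  · have h1' : (0 : ℝ) ≤ x.1 := by exact_mod_cast h1
    have h2' : (3 : ℝ) * x.2 ^ 2 ≤ x.1 ^ 2 := by exact_mod_cast h2
    have h5 : |(x.2 : ℝ) * √3| ≤ |(x.1 : ℝ)| := by
      apply sq_le_sq.1
      nlinarith
    rw [abs_of_nonneg h1'] at h5
    linarith [neg_abs_le ((x.2 : ℝ) * √3)]
  · have h1' : (0 : ℝ) ≤ x.2 := by exact_mod_cast h1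
    have h2' : (x.1 : ℝ) ^ 2 ≤ 3 * x.2 ^ 2 := by exact_mod_cast h2
    have h5 : |(x.1 : ℝ)| ≤ |(x.2 : ℝ) * √3| := by
      apply sq_le_sq.1
      nlinarith
    rw [abs_of_nonneg (by positivity : (0 : ℝ) ≤ x.2 * √3)] at h5
    linarith [neg_abs_le ((x.1 : ℝ))]

/-- Multiplication by `λ⁻¹`. -/
def dl (x : ℤ × ℤ) : ℤ × ℤ := (2 * x.1 - 3 * x.2, 2 * x.2 - x.1)

theorem z3_dl (x : ℤ × ℤ) : z3 (dl x) = z3 x / lam := by
  rw [div_lam]
  unfold z3 dl
  push_cast
  linear_combination (x.2 : ℝ) * sq3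

/-- Multiplication by `λ`. -/
def ml (x : ℤ × ℤ) : ℤ × ℤ := (2 * x.1 + 3 * x.2, 2 * x.2 + x.1)

theorem z3_ml (x : ℤ × ℤ) : z3 (ml x) = lam * z3 x := by
  unfold z3 ml lam
  push_cast
  linear_combination (-(x.2 : ℝ)) * sq3

theorem role_lo (r : Fin 13) : lft (roleTgt r) ≤ roleMap r (lft (roleSrc r)) := by
  have h : ∀ r : Fin 13, nn ((dl (endTab (roleSrc r))).1 + 2 * (roleB r).1 - (endTab (roleTgt r)).1,
      (dl (endTab (roleSrc r))).2 + 2 * (roleB r).2 - (endTab (roleTgt r)).2) = true := by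
    decide +kernel
  have h1 := nn_spec (h r)
  have h2 : z3 ((dl (endTab (roleSrc r))).1 + 2 * (roleB r).1 - (endTab (roleTgt r)).1,
      (dl (endTab (roleSrc r))).2 + 2 * (roleB r).2 - (endTab (roleTgt r)).2) =
      z3 (dl (endTab (roleSrc r))) + 2 * z3 (roleB r) - z3 (endTab (roleTgt r)) := by
    unfold z3; push_cast; ring
  rw [h2, z3_dl] at h1
  unfold roleMap roleT lft
  have h3 : z3 (endTab (roleSrc r)) / 2 / lam = z3 (endTab (roleSrc r)) / lam / 2 := by ring
  rw [h3]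
  linarith

theorem role_hi (r : Fin 13) : roleMap r (lft (roleSrc r) + 1) ≤ lft (roleTgt r) + 1 := by
  have h : ∀ r : Fin 13, nn ((endTab (roleTgt r)).1 + 2 -
        (dl ((endTab (roleSrc r)).1 + 2, (endTab (roleSrc r)).2)).1 - 2 * (roleB r).1,
      (endTab (roleTgt r)).2 - (dl ((endTab (roleSrc r)).1 + 2, (endTab (roleSrc r)).2)).2
        - 2 * (roleB r).2) = true := by
    decide +kernel
  have h1 := nn_spec (h r)
  have h2 : z3 ((endTab (roleTgt r)).1 + 2 -
        (dl ((endTab (roleSrc r)).1 + 2, (endTab (roleSrc r)).2)).1 - 2 * (roleB r).1,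
      (endTab (roleTgt r)).2 - (dl ((endTab (roleSrc r)).1 + 2, (endTab (roleSrc r)).2)).2
        - 2 * (roleB r).2) =
      z3 (endTab (roleTgt r)) + 2 - z3 (dl ((endTab (roleSrc r)).1 + 2, (endTab (roleSrc r)).2)) -
        2 * z3 (roleB r) := by
    unfold z3; push_cast; ring
  rw [h2, z3_dl] at h1
  have h4 : z3 ((endTab (roleSrc r)).1 + 2, (endTab (roleSrc r)).2) =
      2 * (z3 (endTab (roleSrc r)) / 2 + 1) := by
    unfold z3; push_cast; ring
  rw [h4] at h1
  unfold roleMap roleT lft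
  have h3 : 2 * (z3 (endTab (roleSrc r)) / 2 + 1) / lam =
      2 * ((z3 (endTab (roleSrc r)) / 2 + 1) / lam) := by ring
  rw [h3] at h1
  linarith

theorem roleMap_mono (r : Fin 13) {s s' : ℝ} (h : s ≤ s') : roleMap r s ≤ roleMap r s' := by
  unfold roleMap
  have := div_le_div_of_nonneg_right h lam_pos.le
  linarith

theorem roleMap_mem (r : Fin 13) {s : ℝ} (h : s ∈ K (roleSrc r)) : roleMap r s ∈ K (roleTgt r) :=
  ⟨(role_lo r).trans (roleMap_mono r h.1), (roleMap_mono r h.2).trans (role_hi r)⟩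

theorem roleMap_cont (r : Fin 13) : Continuous (roleMap r) := by
  unfold roleMap
  fun_prop

theorem pathMap_nil (s : ℝ) : pathMap [] s = s := rfl

theorem pathMap_cons (r : Fin 13) (p : List (Fin 13)) (s : ℝ) :
    pathMap (r :: p) s = pathMap p (roleMap r s) := rfl

theorem pathMap_append (p q : List (Fin 13)) (s : ℝ) :
    pathMap (p ++ q) s = pathMap q (pathMap p s) := by
  unfold pathMap
  rw [List.foldl_append]

theorem pathAut_nil : pathAut [] = 1 := rfl

theorem pathAut_cons (r : Fin 13) (p : List (Fin 13)) :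
    pathAut (r :: p) = roleAut r * pathAut p := rfl

theorem pathAut_append (p q : List (Fin 13)) : pathAut (p ++ q) = pathAut p * pathAut q := by
  unfold pathAut
  rw [List.map_append, List.prod_append]

theorem pathMap_cont (p : List (Fin 13)) : Continuous (pathMap p) := by
  induction p with
  | nil => exact continuous_id
  | cons r p ih =>
    have : pathMap (r :: p) = pathMap p ∘ roleMap r := rfl
    rw [this]
    exact ih.comp (roleMap_cont r)

theorem pathMap_mem {j i : Fin 3} {p : List (Fin 13)} (h : RPath j i p) {s : ℝ} (hs : s ∈ K j) :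
    pathMap p s ∈ K i := by
  induction h generalizing s with
  | nil j => exact hs
  | cons r p i _ ih => exact ih (roleMap_mem r hs)

theorem rpath_append {j i k : Fin 3} {p q : List (Fin 13)} (h : RPath j i p) (h' : RPath i k q) :
    RPath j k (p ++ q) := by
  induction h with
  | nil j => exact h'
  | cons r p i _ ih => exact RPath.cons r _ k (ih h')

theorem rpath_split {j k : Fin 3} {p q : List (Fin 13)} (h : RPath j k (p ++ q)) :
    ∃ i, RPath j i p ∧ RPath i k q := by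
  induction p generalizing j with
  | nil => exact ⟨j, RPath.nil j, h⟩
  | cons r p ih =>
    cases h with
    | cons _ _ _ h =>
      obtain ⟨i, h1, h2⟩ := ih h
      exact ⟨i, RPath.cons r p i h1, h2⟩

theorem rpath_single (r : Fin 13) : RPath (roleSrc r) (roleTgt r) [r] :=
  RPath.cons r [] _ (RPath.nil _)

end Pool.Agent.CircleShift
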